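import Mathlib
import Pool.Agent.Work.MP_44129c_co.E.Perv2

/-!
# MP_44129c_co/T3, Cube3 (size S-M): the flips of a low vertex, both alternatives

PROOF.  The same as the private lemmas `no_div`, `lem_first` of `E/Perv.lean` (copy them), but keep both alternatives of `E.lemW`.
-/

set_option autoImplicit false

namespace ZS44129
namespace T3

open Finset E

variable {V : Type} [Fintype V] [DecidableEq V] {m : ℕ}

private theorem exL_ge {u : V} {y : V → ℤ} {x : V} (hx : x ∈ LL u y) : 0 ≤ exL u y + y x := by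
  have h1 : - y x ≤ exL u y := by
    unfold exL
    exact Finset.single_le_sum (f := fun w => - y w) (fun w hw => by have := (mem_LL.1 hw).2; omega) hx
  linarith

private theorem exH_ge {u : V} {y : V → ℤ} {W : Finset V} (hW : W ⊆ HH u y) :
    0 ≤ exH u y - ∑ w ∈ W, (y w - 1) := by
  have h1 : ∑ w ∈ W, (y w - 1) ≤ exH u y := by
    unfold exH
    exact Finset.sum_le_sum_of_subset_of_nonneg hW (fun w hw _ => by have := (mem_HH.1 hw).2; omega)
  linarith

private theorem KK_sub (c : V → V → ZMod m) (u : V) (y : V → ℤ) (x : V) : KK c u y x ⊆ HH u y :=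
  Finset.filter_subset _ _

private theorem mem_KK {c : V → V → ZMod m} {u : V} {y : V → ℤ} {x w : V} :
    w ∈ KK c u y x ↔ w ∈ HH u y ∧ rep (2 - lo m u y) (c x w) ≤ 0 := by
  simp [KK]

private theorem D_bd {c : V → V → ZMod m} {u : V} {y : V → ℤ} {x w : V} (hw : w ∈ KK c u y x) :
    1 ≤ 1 - rep (2 - lo m u y) (c x w) ∧ (1 - rep (2 - lo m u y) (c x w)) + 1 ≤ lo m u y := by
  have h1 := (mem_KK.1 hw).2
  have h2 := rep_ge (2 - lo m u y) (c x w)
  omega

private theorem no_div [NeZero m] {c : V → V → ZMod m} (hsym : ∀ x w, c x w = c w x) (hz : ZSF m c) {u : V}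
    {y : V → ℤ} (h : SL c u y) {s : ℕ} (hV : Fintype.card V = m + s) (hL : exL u y + 2 ≤ s)
    (hH : exH u y + 2 ≤ s) {x : V} (hx : x ∈ LL u y) {W : Finset V} (hW : W ⊆ KK c u y x)
    (hWc : (W.card : ℤ) ≤ lo m u y) (j : ℤ) (hj : 0 ≤ j) (hjs : j + 1 ≤ s) :
    ¬ (m : ℤ) ∣ (lo m u y - ∑ w ∈ W, (1 - rep (2 - lo m u y) (c x w)) + j) := by
  have hWH : W ⊆ HH u y := hW.trans (KK_sub c u y x)
  have h0 := exL_nonneg u y
  have hc : W.card + (LL u y).card ≤ m := by
    have : (W.card : ℤ) + (LL u y).card ≤ m := by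
      unfold lo at hWc
      linarith
    exact_mod_cast this
  have h1 := exL_ge hx
  have h2 := exH_ge hWH
  refine fam hsym hz h hV hL hH hx W hWH hc (fun w => rep (2 - lo m u y) (c x w))
    (fun w _ => rep_cast _ _) _ ?_ ?_
  · linarith
  · linarith

theorem cube3 [NeZero m] {c : V → V → ZMod m} (hsym : ∀ x w, c x w = c w x) (hz : ZSF m c)
    {u : V} {y : V → ℤ} (h : SL c u y) {s : ℕ} (hV : Fintype.card V = m + s)
    (hL : exL u y + 2 ≤ s) (hH : exH u y + 2 ≤ s) (hm : m ≤ 4 * s) {x : V} (hx : x ∈ LL u y)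
    (hlo : (s : ℤ) + 2 ≤ lo m u y) {K₀ : Finset V} (hK : K₀ ⊆ KK c u y x)
    (hc : (K₀.card : ℤ) = lo m u y) :
    (∃ M : ℕ, m = 2 * M ∧
      (K₀.filter (fun w => 1 - rep (2 - lo m u y) (c x w) ≠ (M : ℤ))).card + s + 1 ≤ M) ∨
    (∃ M : ℕ, m = 3 * M ∧
      (K₀.filter (fun w => ¬ (M : ℤ) ∣ 1 - rep (2 - lo m u y) (c x w))).card + s + 1 ≤ M) := by
  have h0 := exL_nonneg u y
  have hlm : lo m u y ≤ m := by
    unfold lo
    have : (0 : ℤ) ≤ (LL u y).card := Int.natCast_nonneg _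
    linarith
  have hs : 2 ≤ s := by
    have : (2 : ℤ) ≤ s := by linarith
    exact_mod_cast this
  have hl2 : s + 2 ≤ K₀.card := by
    have : ((s + 2 : ℕ) : ℤ) ≤ (K₀.card : ℤ) := by push_cast; linarith
    exact_mod_cast this
  have hlm2 : K₀.card ≤ m := by
    have : (K₀.card : ℤ) ≤ m := by linarith
    exact_mod_cast this
  refine lemW hs hl2 hlm2 hm K₀ rfl (fun w => 1 - rep (2 - lo m u y) (c x w)) ?_ ?_
  · intro w hw
    have := D_bd (hK hw)
    constructor
    · exact this.1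
    · rw [hc]; exact this.2
  · intro W hW j hj hjs
    have := no_div hsym hz h hV hL hH hx (hW.trans hK) (by
      rw [← hc]; exact_mod_cast Finset.card_le_card hW) j hj hjs
    rw [hc]
    exact this

end T3
end ZS44129
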