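import Mathlib
import Pool.Agent.Work.MP_44129c_co.E.NoTw

/-!
# MP_44129c_co/T3, NoTwG (size S-M): no order 2 twist, with the per-vertex lemma as a hypothesis

PROOF.  Copy the proof of `no_tw_L` in `E/NoTw.lean` (and its private lemmas `sum_ite_card` etc.); `perv` is only used in `hU`, replace it by `hperv`.
-/

set_option autoImplicit false

namespace ZS44129
namespace T3

open Finset E

variable {V : Type} [Fintype V] [DecidableEq V] {m : ℕ}

omit [Fintype V] [DecidableEq V] in
private theorem sum_ite_card {S : Finset V} (p : V → Prop) [DecidablePred p] (a b : ℤ) :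
    ∑ x ∈ S, (if p x then a else b) = ((S.filter p).card : ℤ) * a +
      ((S.card : ℤ) - (S.filter p).card) * b := by
  rw [Finset.sum_ite, Finset.sum_const, Finset.sum_const, nsmul_eq_mul, nsmul_eq_mul]
  have h := Finset.card_filter_add_card_filter_not (s := S) p
  have h' : ((S.filter fun x => ¬ p x).card : ℤ) = (S.card : ℤ) - (S.filter p).card := by
    have : ((S.filter p).card : ℤ) + (S.filter fun x => ¬ p x).card = S.card := by exact_mod_cast h
    linarith
  rw [h']

theorem no_tw_G [NeZero m] {c : V → V → ZMod m} (hsym : ∀ x w, c x w = c w x) (hz : ZSF m c)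
    {u : V} {y : V → ℤ} (h : SL c u y) {s : ℕ} (hV : Fintype.card V = m + s)
    (hL : exL u y + 2 ≤ s) (hH : exH u y + 2 ≤ s)
    (hperv : ∀ x ∈ LL u y, s + exL u y ≤ ((UU c u y x).card : ℤ) ∨
      ∃ M : ℕ, m = 2 * M ∧ ((LL u y).card : ℤ) + exL u y + 1 ≤ M ∧
        M + 2 * s ≤ (UU c u y x).card + (LL u y).card +
          ((HH u y).filter (fun w => c x w = 1 - M)).card) {M : ℕ} (hM : m = 2 * M)
    (hm : m + 4 ≤ 4 * s) (hnum : M * M + s < s * s + M * s + M) :
    ¬ (((LL u y).card : ℤ) + exL u y + 1 ≤ M) := by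
  intro hlM
  have hs1 : 1 ≤ s := by omega
  have hLH := card_LH hV hs1 u y
  have hLHz : ((LL u y).card : ℤ) + (HH u y).card + 1 = m + s := by exact_mod_cast hLH
  have hLn := exL_nonneg u y
  have hHn := exH_nonneg u y
  have hHle := exH_le h hV hL
  have hMz : (m : ℤ) = 2 * M := by exact_mod_cast hM
  have hmz : (m : ℤ) + 4 ≤ 4 * s := by exact_mod_cast hm
  -- the four inequalities
  have hap : ap m u y ≤ s + 1 := by unfold ap; linarith
  have hdc := dc0 hsym hz h hV hL hH (by linarith)
  have hP1 : ∀ w ∈ HH u y, (s : ℤ) ≤ ((PP c u y w).card : ℤ) := by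
    intro w hw
    have := pervH_greedy hsym hz h hV hL hH hw hap
    linarith
  have hP2 : ∀ w ∈ HH u y, (s : ℤ) - 1 + ((LL u y).filter (fun x => c w x = 1 - M)).card ≤
      ((PP c u y w).card : ℤ) := by
    intro w hw
    have := twbH hsym hz h hV hL hH hM hm hlM hw
    linarith
  have hU : ∀ x ∈ LL u y, (UU c u y x).card < s → (M : ℤ) + 2 * s - (LL u y).card ≤
      ((UU c u y x).card : ℤ) + ((HH u y).filter (fun w => c x w = 1 - M)).card := by
    intro x hx hb
    rcases hperv x hx with h1 | ⟨M', hM', _, h1⟩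
    · exfalso
      have : ((UU c u y x).card : ℤ) < s := by exact_mod_cast hb
      linarith
    · have hMM : M' = M := by omega
      rw [hMM] at h1
      have h1z : (M : ℤ) + 2 * s ≤ (UU c u y x).card + (LL u y).card +
          ((HH u y).filter (fun w => c x w = 1 - M)).card := by exact_mod_cast h1
      linarith
  -- double counting of the twisted edges
  have hT : ∑ w ∈ HH u y, (((LL u y).filter (fun x => c w x = 1 - M)).card : ℤ) =
      ∑ x ∈ LL u y, (((HH u y).filter (fun w => c x w = 1 - M)).card : ℤ) := by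
    have e1 : ∀ w, (((LL u y).filter (fun x => c w x = 1 - M)).card : ℤ) =
        ∑ x ∈ LL u y, (if c x w = 1 - M then (1 : ℤ) else 0) := by
      intro w
      rw [Finset.card_filter]
      push_cast
      refine Finset.sum_congr rfl (fun x _ => ?_)
      rw [hsym w x]
    have e2 : ∀ x, (((HH u y).filter (fun w => c x w = 1 - M)).card : ℤ) =
        ∑ w ∈ HH u y, (if c x w = 1 - M then (1 : ℤ) else 0) := by
      intro x
      rw [Finset.card_filter]
      push_cast
      rfl
    rw [Finset.sum_congr rfl (fun w _ => e1 w), Finset.sum_congr rfl (fun x _ => e2 x)]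
    exact Finset.sum_comm
  set B : ℕ := ((LL u y).filter (fun x => (UU c u y x).card < s)).card with hB
  set l : ℤ := ((LL u y).card : ℤ) with hl
  set hh : ℤ := ((HH u y).card : ℤ) with hhh
  have hBl : (B : ℤ) ≤ l := by
    rw [hB, hl]
    exact_mod_cast Finset.card_filter_le _ _
  -- (1)
  have i1 : (l - B) * s ≤ ∑ x ∈ LL u y, ((UU c u y x).card : ℤ) := by
    have e : ∑ x ∈ LL u y, (if (UU c u y x).card < s then (0 : ℤ) else s) ≤
        ∑ x ∈ LL u y, ((UU c u y x).card : ℤ) := by
      refine Finset.sum_le_sum (fun x _ => ?_)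
      split_ifs with hb
      · exact Int.natCast_nonneg _
      · have : s ≤ (UU c u y x).card := not_lt.1 hb
        exact_mod_cast this
    rw [sum_ite_card, mul_zero, zero_add] at e
    exact e
  have i2 : hh * s ≤ ∑ w ∈ HH u y, ((PP c u y w).card : ℤ) := by
    have e := Finset.sum_le_sum hP1
    rw [Finset.sum_const, nsmul_eq_mul] at e
    exact e
  -- (2)
  have i3 : (B : ℤ) * (M + 2 * s - l) + (l - B) * s ≤ ∑ x ∈ LL u y, ((UU c u y x).card : ℤ) +
      ∑ x ∈ LL u y, (((HH u y).filter (fun w => c x w = 1 - M)).card : ℤ) := by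
    rw [← Finset.sum_add_distrib]
    have e : ∑ x ∈ LL u y, (if (UU c u y x).card < s then ((M : ℤ) + 2 * s - l) else s) ≤
        ∑ x ∈ LL u y, (((UU c u y x).card : ℤ) +
          ((HH u y).filter (fun w => c x w = 1 - M)).card) := by
      refine Finset.sum_le_sum (fun x hx => ?_)
      split_ifs with hb
      · exact hU x hx hb
      · have h1 : s ≤ (UU c u y x).card := not_lt.1 hb
        have h2 : (s : ℤ) ≤ (UU c u y x).card := by exact_mod_cast h1
        have h4 : (0 : ℤ) ≤ ((HH u y).filter (fun w => c x w = 1 - M)).card := Int.natCast_nonneg _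
        linarith
    rw [sum_ite_card] at e
    exact e
  have i4 : hh * (s - 1) + ∑ w ∈ HH u y, (((LL u y).filter (fun x => c w x = 1 - M)).card : ℤ) ≤
      ∑ w ∈ HH u y, ((PP c u y w).card : ℤ) := by
    have e := Finset.sum_le_sum hP2
    rw [Finset.sum_add_distrib, Finset.sum_const, nsmul_eq_mul] at e
    exact e
  rw [hT] at i4
  have d1 : s * (l + hh) - l * hh ≤ s * B := by nlinarith
  have d2 : s * (l + hh) - l * hh ≤ hh - B * (M + s - l) := by nlinarith
  have hhe : hh = 2 * M + s - 1 - l := by linarith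
  have hlM' : l ≤ M - 1 := by linarith
  have hs2 : (M : ℤ) + 2 ≤ 2 * s := by linarith
  have hl0 : (0 : ℤ) ≤ l := by rw [hl]; exact Int.natCast_nonneg _
  have hd : s * (l + hh) - l * hh ≤ s := by
    rcases Nat.lt_or_ge B 3 with hB3 | hB3
    · interval_cases hBB : B
      · have : (0 : ℤ) ≤ s := Int.natCast_nonneg _
        push_cast at d1
        linarith
      · push_cast at d1
        linarith
      · push_cast at d2
        rw [hhe] at d2 ⊢
        linarith
    · have hB3z : (3 : ℤ) ≤ B := by exact_mod_cast hB3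
      have h5 : (0 : ℤ) ≤ M + s - l := by linarith [Int.natCast_nonneg s]
      have h6 : 3 * ((M : ℤ) + s - l) ≤ B * (M + s - l) := mul_le_mul_of_nonneg_right hB3z h5
      rw [hhe] at d2 ⊢
      linarith
  have hnz : (M : ℤ) * M + s < s * s + M * s + M := by exact_mod_cast hnum
  have hfin : (0 : ℤ) ≤ (M - 1 - l) * (hh - (M - 1)) := by
    apply mul_nonneg
    · linarith
    · rw [hhe]; linarith [Int.natCast_nonneg s]
  rw [hhe] at hd hfin
  nlinarith

end T3
end ZS44129
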