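import Mathlib
import Pool.Agent.Work.MP_44129c_co.E.Defs
import Pool.Agent.Work.MP_44129c_co.N.PLift

/-!
# MP_44129c_co/T3, Defs (FIXED, do not change): no P-twins (order 3), definitions

Paper: helper54, `/team-store/44129c_helper54_4.md`.  `m = 3 M`; `P = {0, M, 2 M}` is the set of the `δ : ZMod m` with `3 δ = 0`
(we always write `3 * a = 3 * b` for `a ≡ b mod P`).
`At c p r S k z`: `z` is the sum of the colours of `k` leaves in `S`, each leaf at `p` or at `r`.
`Gad c p r S k a`: two such sums (with `k` leaves, `a` elements of `S` left out) differ by an element `≠ 0` of `P`.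
-/

set_option autoImplicit false

namespace ZS44129
namespace T3

open Finset

variable {V : Type} [Fintype V] [DecidableEq V] {m : ℕ}

/-- sums of `k` leaves in `S`, each at `p` or at `r`. -/
def At (c : V → V → ZMod m) (p r : V) (S : Finset V) (k : ℕ) (z : ZMod m) : Prop :=
  ∃ A B : Finset V, A ⊆ S ∧ B ⊆ S ∧ Disjoint A B ∧ A.card + B.card = k ∧
    ∑ w ∈ A, c p w + ∑ w ∈ B, c r w = z

/-- a gadget of order 3. -/
structure Gad (c : V → V → ZMod m) (p r : V) (S : Finset V) (k a : ℕ) : Prop where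
  sub : S ⊆ XX p r
  cd : S.card = k + a
  ex : ∃ z δ : ZMod m, δ ≠ 0 ∧ 3 * δ = 0 ∧ At c p r S k z ∧ At c p r S k (z + δ)

/-- disjoint union. -/
theorem At.union {c : V → V → ZMod m} {p r : V} {S T : Finset V} {k l : ℕ} {z w : ZMod m}
    (h1 : At c p r S k z) (h2 : At c p r T l w) (hd : Disjoint S T) :
    At c p r (S ∪ T) (k + l) (z + w) := by
  obtain ⟨A, B, hA, hB, hAB, hc, hs⟩ := h1
  obtain ⟨A', B', hA', hB', hAB', hc', hs'⟩ := h2
  have d1 : Disjoint A A' := Finset.disjoint_of_subset_left hA (Finset.disjoint_of_subset_right hA' hd)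
  have d2 : Disjoint B B' := Finset.disjoint_of_subset_left hB (Finset.disjoint_of_subset_right hB' hd)
  have d3 : Disjoint A B' := Finset.disjoint_of_subset_left hA (Finset.disjoint_of_subset_right hB' hd)
  have d4 : Disjoint A' B :=
    (Finset.disjoint_of_subset_left hB (Finset.disjoint_of_subset_right hA' hd)).symm
  refine ⟨A ∪ A', B ∪ B', Finset.union_subset_union hA hA', Finset.union_subset_union hB hB', ?_, ?_, ?_⟩
  · rw [Finset.disjoint_union_left, Finset.disjoint_union_right, Finset.disjoint_union_right]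
    exact ⟨⟨hAB, d3⟩, ⟨d4, hAB'⟩⟩
  · rw [Finset.card_union_of_disjoint d1, Finset.card_union_of_disjoint d2]
    omega
  · rw [Finset.sum_union d1, Finset.sum_union d2, ← hs, ← hs']
    ring

/-- zero-sum free: the value `- c p r` is not a sum of `m - 1` leaves. -/
theorem no_at {c : V → V → ZMod m} (hz : ZSF m c) {p r : V} (hpr : p ≠ r) {k : ℕ} (hk : k + 1 = m) :
    ¬ At c p r (XX p r) k (- c p r) := by
  rintro ⟨A, B, hA, hB, hAB, hc, hs⟩
  refine hz p r hpr A B hAB (fun h => (mem_XX.1 (hA h)).1 rfl) (fun h => (mem_XX.1 (hA h)).2 rfl)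
    (fun h => (mem_XX.1 (hB h)).1 rfl) (fun h => (mem_XX.1 (hB h)).2 rfl) (by omega) ?_
  rw [add_assoc, hs]
  ring

/-- the value of the star: `0` on `G0`, `1` elsewhere. -/
def yy (G0 : Finset V) (w : V) : ℤ := if w ∈ G0 then 0 else 1

end T3
end ZS44129
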