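import Mathlib
import Pool.Agent.Work.MP_44129c_co.T3.Defs
import Pool.Agent.Work.MP_44129c_co.N.C34

/-!
# MP_44129c_co/T3, Cost (size M): the cost of a pair whose second star is constant modulo 3

`cf A B = |A - B|` is at most the cost of a position in both alternatives of `N.c3`.
PROOF of `sum_abs`: `N.c3`; in both alternatives the summand is `≥ |g w - y w|` (`max - min = |g - y|`).
PROOF of `cost_contra`.  Let `G = G0 ∪ G1`, `G* = G \ T` (`|G*| ≥ |G| - 5`), `G0* = G0 \ T`, `G1* = G1 \ T`, `d = β - α`, `n w = g w - y w`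
(`y = 0` on `G0`, `1` on `G1`).
(A) Case `3 ∣ d`.  Then (structure) for `w ∈ G*`: `4 ≤ |n w|` or `3 ∣ eps w`; `eps w = α` on `G0*`, `β ≡ α` on `G1*`.  If `3 ∣ α` then `3 ∣ eps w` for all `w ∈ G*`, so
the at least 6 elements with `¬ 3 ∣ eps w` are in `T`: contradiction (`|T| ≤ 5`).  Otherwise `4 ≤ |n w|` on `G*`.
(B) Case `¬ 3 ∣ d`.  There is `c₀ ∈ {0, 1, 2}` with `3 ∣ α + c₀ d`.  For `w ∈ G0*`: `4 ≤ |n w|` or `3 ∣ α + (g w) d`, i.e. `3 ∣ (g w - c₀) d`, `g w ≡ c₀`.  For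
`w ∈ G1*`: `4 ≤ |n w|` or `3 ∣ β + (g w - 1) d = α + (g w) d`, again `g w ≡ c₀ (mod 3)`.
Costs.  `N.c3` (with `hD`) gives two alternatives.
(II) (central `θ`): `∑ cost ≤ m - s - 1`, and `cost ≥ |n w|`.  Case (A): `|n w| ≥ 1` on `G*`.  Case (B): `c₀ = 0`: `|n w| ≥ 1 + [g w ≠ 0]` on `G1*`,
`≥ [g w ≠ 0]` on `G0*`, so `∑ ≥ |G1*| + #{w ∈ G* : g w ≠ 0} ≥ |G1*| + |G*| - a ≥ m - s` (`n3'`).  `c₀ = 1`: `≥ 1 + [g w ≠ 1]` on `G0*`, `≥ [g w ≠ 1]` on `G1*`: the
same with `G0` (`n3`).  `c₀ = 2`: `|n w| ≥ 1` on `G*`: `≥ |G*| ≥ m - 1 ≥ m - s` (`n1`).  All contradict `∑ ≤ m - s - 1`.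
(I) (`θ`, not central): `∑ ((max - θ)^+ + (θ - min)^+) ≤ m - 2`.  `θ ≥ 2`: every `w ∈ G` has `min ≤ 1`, summand `≥ 1`, `∑ ≥ |G| ≥ m`.  `θ ≤ -1`: `max ≥ 0`, the same.
`θ = 1`: on `G1` the summand is `|g w - 1|`, on `G0` it is `g w` for `g w ≥ 1` and `1 - g w` for `g w ≤ 0`.  So in case (A) it is `≥ 1` on `G*` (`4 ≤ |n w|`); `c₀ = 0`: `≥ 1` on `G*`;
`c₀ = 2`: `≥ 1` on `G*`: `∑ ≥ |G*| ≥ m - 1`; `c₀ = 1`: `≥ 1 + 2 [g w ≠ 1]` on `G0*`, `≥ 2 [g w ≠ 1]` on `G1*`: `∑ ≥ |G0*| + 2 (|G*| - a) ≥ m - 1` (`n2`).  `θ = 0`: on `G0` the summand is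
`|g w|`, on `G1` it is `1 - g w` for `g w ≤ 0` ... (`al = 1`: `max(1, g) + (- min(1, g))^+`, i.e. `g w` for `g w ≥ 1`, `1 - g w` for `g w ≤ 0`): (A), `c₀ = 1`, `c₀ = 2`: `≥ 1` on `G*`;
`c₀ = 0`: `≥ 2 [g w ≠ 0]` on `G0*`, `≥ 1 + 2 [g w ≠ 0]` on `G1*` (`n2'`).  Each contradicts `∑ ≤ m - 2`.
-/

set_option autoImplicit false

namespace ZS44129
namespace T3

open Finset N

variable {V : Type} [Fintype V] [DecidableEq V] {m : ℕ}

private theorem cc_abs (θ a b : ℤ) : |b - a| ≤ cost θ a b := by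
  unfold cost
  rw [abs_le]
  constructor <;> (split_ifs <;> omega)

private theorem cc_abs' (θ a b : ℤ) : |b - a| ≤ max (max a b - θ) 0 + max (θ - min a b) 0 := by
  rw [abs_le]
  constructor <;> omega

theorem sum_abs {c : V → V → ZMod m} {u v : V} {z0 : ℤ} {y g : V → ℤ}
    (h : PLift c u v z0 y g) {s : ℕ} (hV : Fintype.card V = m + s) (hs : 1 ≤ s) (hm : 2 ≤ m)
    (hD : m < 2 * s + ((XX u v).filter (fun w => y w ≠ g w)).card) :
    ∑ w ∈ XX u v, |g w - y w| + 2 ≤ (m : ℤ) := by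
  rcases c3 h hV hs hm hD with ⟨θ, h1, -, -⟩ | ⟨θ, h1, -, -⟩
  · have h2 : ∑ w ∈ XX u v, |g w - y w| ≤
        ∑ w ∈ XX u v, (max (max (y w) (g w) - θ) 0 + max (θ - min (y w) (g w)) 0) :=
      Finset.sum_le_sum fun w _ => cc_abs' θ (y w) (g w)
    linarith
  · have h2 : ∑ w ∈ XX u v, |g w - y w| ≤ ∑ w ∈ XX u v, cost θ (y w) (g w) :=
      Finset.sum_le_sum fun w _ => cc_abs θ (y w) (g w)
    have h3 : (1 : ℤ) ≤ s := by exact_mod_cast hs
    linarith

private theorem lowb (F g : V → ℤ) (X S0 S1 : Finset V) (hF : ∀ w ∈ X, 0 ≤ F w) (h0X : S0 ⊆ X)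
    (h1X : S1 ⊆ X) (hd : Disjoint S0 S1) (p0 p1 q k : ℤ) (hq : 0 ≤ q)
    (h0 : ∀ w ∈ S0, p0 + q * (if g w = k then 0 else 1) ≤ F w)
    (h1 : ∀ w ∈ S1, p1 + q * (if g w = k then 0 else 1) ≤ F w) (a : ℕ)
    (ha : ((S0 ∪ S1).filter (fun w => g w = k)).card ≤ a) :
    p0 * S0.card + p1 * S1.card + q * (S0.card + S1.card - a) ≤ ∑ w ∈ X, F w := by
  have e1 : ∑ w ∈ S0 ∪ S1, F w ≤ ∑ w ∈ X, F w :=
    Finset.sum_le_sum_of_subset_of_nonneg (Finset.union_subset h0X h1X) fun w hw _ => hF w hw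
  rw [Finset.sum_union hd] at e1
  have e2 : ∑ w ∈ S0, (p0 + q * (if g w = k then 0 else 1)) ≤ ∑ w ∈ S0, F w :=
    Finset.sum_le_sum h0
  have e3 : ∑ w ∈ S1, (p1 + q * (if g w = k then 0 else 1)) ≤ ∑ w ∈ S1, F w :=
    Finset.sum_le_sum h1
  rw [Finset.sum_add_distrib, Finset.sum_const, nsmul_eq_mul, ← Finset.mul_sum] at e2 e3
  have e4 : ∑ w ∈ S0 ∪ S1, (if g w = k then (0 : ℤ) else 1) =
      (S0.card + S1.card : ℤ) - ((S0 ∪ S1).filter (fun w => g w = k)).card := by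
    have e5 : ∀ w ∈ S0 ∪ S1, (if g w = k then (0 : ℤ) else 1) =
        1 - (if g w = k then (1 : ℤ) else 0) := by
      intro w _
      split_ifs <;> norm_num
    rw [Finset.sum_congr rfl e5, Finset.sum_sub_distrib, Finset.sum_const, Finset.sum_boole,
      Finset.card_union_of_disjoint hd]
    simp
  rw [Finset.sum_union hd] at e4
  have e6 : (((S0 ∪ S1).filter (fun w => g w = k)).card : ℤ) ≤ a := by exact_mod_cast ha
  have e7 : q * (S0.card + S1.card - a : ℤ) ≤ q * ((∑ w ∈ S0, if g w = k then (0 : ℤ) else 1) +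
      ∑ w ∈ S1, if g w = k then (0 : ℤ) else 1) := by
    refine mul_le_mul_of_nonneg_left ?_ hq
    rw [e4]
    linarith
  rw [mul_add] at e7
  linarith

theorem cost_contra {c : V → V → ZMod m} {u v : V} {z0 : ℤ} {y g : V → ℤ}
    (h : PLift c u v z0 y g) {s : ℕ} (hV : Fintype.card V = m + s) (hs : 1 ≤ s) (hm : 2 ≤ m)
    (hD : m < 2 * s + ((XX u v).filter (fun w => y w ≠ g w)).card) (G0 G1 : Finset V)
    (hG0 : G0 ⊆ XX u v) (hG1 : G1 ⊆ XX u v) (hd : Disjoint G0 G1) (y0 : ∀ w ∈ G0, y w = 0)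
    (y1 : ∀ w ∈ G1, y w = 1) (eps : V → ℤ) (T : Finset V) (hT : T.card ≤ 5) (α β : ℤ)
    (e0 : ∀ w ∈ G0 \ T, eps w = α) (e1 : ∀ w ∈ G1 \ T, eps w = β)
    (hst : ∀ w ∈ (G0 ∪ G1) \ T, 4 ≤ |g w - y w| ∨ (3 : ℤ) ∣ eps w + (g w - y w) * (β - α))
    (htw : 6 ≤ ((G0 ∪ G1).filter (fun w => ¬ (3 : ℤ) ∣ eps w)).card) (a : ℕ)
    (ha : ∀ k : ℤ, ((G0 ∪ G1).filter (fun w => g w = k)).card ≤ a)
    (n1 : m + 4 ≤ G0.card + G1.card) (n2 : m + 14 + 2 * a ≤ G0.card + 2 * (G0.card + G1.card))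
    (n2' : m + 14 + 2 * a ≤ G1.card + 2 * (G0.card + G1.card))
    (n3 : m + 10 + a ≤ G0.card + (G0.card + G1.card) + s)
    (n3' : m + 10 + a ≤ G1.card + (G0.card + G1.card) + s) : False := by
  -- the residue of the second star
  have hsub : ((G0 ∪ G1).filter (fun w => ¬ (3 : ℤ) ∣ eps w)).card ≤ 5 → False := by
    intro h1
    omega
  obtain ⟨c0, hc0, hc⟩ : ∃ c0 : ℤ, (c0 = 0 ∨ c0 = 1 ∨ c0 = 2) ∧ ∀ w ∈ (G0 ∪ G1) \ T,
      4 ≤ |g w - y w| ∨ (3 : ℤ) ∣ g w - c0 := by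
    by_cases hδ : (3 : ℤ) ∣ β - α
    · refine ⟨2, Or.inr (Or.inr rfl), ?_⟩
      intro w hw
      left
      rcases hst w hw with h1 | h1
      · exact h1
      · exfalso
        have h2 : (3 : ℤ) ∣ eps w := (dvd_add_left (hδ.mul_left _)).1 h1
        have hα : (3 : ℤ) ∣ α := by
          rw [Finset.mem_sdiff, Finset.mem_union] at hw
          rcases hw with ⟨h3 | h3, h4⟩
          · rw [← e0 w (Finset.mem_sdiff.2 ⟨h3, h4⟩)]
            exact h2
          · rw [e1 w (Finset.mem_sdiff.2 ⟨h3, h4⟩)] at h2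
            omega
        apply hsub
        refine le_trans (Finset.card_le_card ?_) hT
        intro z hz
        rw [Finset.mem_filter, Finset.mem_union] at hz
        by_contra hzT
        apply hz.2
        rcases hz.1 with h3 | h3
        · rw [e0 z (Finset.mem_sdiff.2 ⟨h3, hzT⟩)]
          exact hα
        · rw [e1 z (Finset.mem_sdiff.2 ⟨h3, hzT⟩)]
          omega
    · obtain ⟨c0, hc0, hcd⟩ : ∃ c0 : ℤ, (c0 = 0 ∨ c0 = 1 ∨ c0 = 2) ∧
          (3 : ℤ) ∣ α + c0 * (β - α) := by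
        have h1 : (β - α) % 3 = 1 ∨ (β - α) % 3 = 2 := by omega
        have h2 : α % 3 = 0 ∨ α % 3 = 1 ∨ α % 3 = 2 := by omega
        rcases h2 with h2 | h2 | h2
        · exact ⟨0, Or.inl rfl, by omega⟩
        · rcases h1 with h1 | h1
          · exact ⟨2, Or.inr (Or.inr rfl), by omega⟩
          · exact ⟨1, Or.inr (Or.inl rfl), by omega⟩
        · rcases h1 with h1 | h1
          · exact ⟨1, Or.inr (Or.inl rfl), by omega⟩
          · exact ⟨2, Or.inr (Or.inr rfl), by omega⟩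
      refine ⟨c0, hc0, ?_⟩
      intro w hw
      rcases hst w hw with h1 | h1
      · exact Or.inl h1
      · right
        have h2 : (3 : ℤ) ∣ α + g w * (β - α) := by
          rw [Finset.mem_sdiff, Finset.mem_union] at hw
          rcases hw with ⟨h3 | h3, h4⟩
          · rw [e0 w (Finset.mem_sdiff.2 ⟨h3, h4⟩), y0 w h3, sub_zero] at h1
            exact h1
          · rw [e1 w (Finset.mem_sdiff.2 ⟨h3, h4⟩), y1 w h3] at h1
            have h5 : β + (g w - 1) * (β - α) = α + g w * (β - α) := by ring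
            rw [← h5]
            exact h1
        have h3 : (3 : ℤ) ∣ (g w - c0) * (β - α) := by
          have h4 := dvd_sub h2 hcd
          have h5 : α + g w * (β - α) - (α + c0 * (β - α)) = (g w - c0) * (β - α) := by ring
          rw [h5] at h4
          exact h4
        exact (Int.prime_three.dvd_or_dvd h3).resolve_right hδ
  -- the two parts
  obtain ⟨S0, hS0⟩ : ∃ S0 : Finset V, S0 = G0 \ T := ⟨_, rfl⟩
  obtain ⟨S1, hS1⟩ : ∃ S1 : Finset V, S1 = G1 \ T := ⟨_, rfl⟩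
  have hS0X : S0 ⊆ XX u v := by
    rw [hS0]
    exact Finset.sdiff_subset.trans hG0
  have hS1X : S1 ⊆ XX u v := by
    rw [hS1]
    exact Finset.sdiff_subset.trans hG1
  have hSd : Disjoint S0 S1 := by
    rw [hS0, hS1]
    exact Finset.disjoint_of_subset_left Finset.sdiff_subset
      (Finset.disjoint_of_subset_right Finset.sdiff_subset hd)
  have hSU : S0 ∪ S1 = (G0 ∪ G1) \ T := by
    rw [hS0, hS1, Finset.union_sdiff_distrib]
  have k0 : G0.card ≤ S0.card + 5 := by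
    have h1 := Finset.le_card_sdiff T G0
    rw [hS0]
    omega
  have k1 : G1.card ≤ S1.card + 5 := by
    have h1 := Finset.le_card_sdiff T G1
    rw [hS1]
    omega
  have k2 : G0.card + G1.card ≤ S0.card + S1.card + 5 := by
    have h1 := Finset.le_card_sdiff T (G0 ∪ G1)
    rw [← hSU, Finset.card_union_of_disjoint hSd, Finset.card_union_of_disjoint hd] at h1
    omega
  have hak : ∀ k : ℤ, ((S0 ∪ S1).filter (fun w => g w = k)).card ≤ a := by
    intro k
    refine le_trans (Finset.card_le_card ?_) (ha k)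
    refine Finset.filter_subset_filter _ ?_
    rw [hSU]
    exact Finset.sdiff_subset
  have q0 : ∀ w ∈ S0, y w = 0 ∧ (g w ≤ -4 ∨ 4 ≤ g w ∨ (3 : ℤ) ∣ g w - c0) := by
    intro w hw
    rw [hS0, Finset.mem_sdiff] at hw
    have hy := y0 w hw.1
    refine ⟨hy, ?_⟩
    have h1 := hc w (Finset.mem_sdiff.2 ⟨Finset.mem_union_left _ hw.1, hw.2⟩)
    rw [hy, sub_zero, le_abs'] at h1
    omega
  have q1 : ∀ w ∈ S1, y w = 1 ∧ (g w ≤ -3 ∨ 5 ≤ g w ∨ (3 : ℤ) ∣ g w - c0) := by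
    intro w hw
    rw [hS1, Finset.mem_sdiff] at hw
    have hy := y1 w hw.1
    refine ⟨hy, ?_⟩
    have h1 := hc w (Finset.mem_sdiff.2 ⟨Finset.mem_union_right _ hw.1, hw.2⟩)
    rw [hy, le_abs'] at h1
    omega
  rcases c3 h hV hs hm hD with ⟨θ, h1, -, -⟩ | ⟨θ, h1, -, -⟩
  · -- not central
    have hF : ∀ w ∈ XX u v,
        0 ≤ max (max (y w) (g w) - θ) 0 + max (θ - min (y w) (g w)) 0 := by
      intro w _
      omega
    have base := lowb (fun w => max (max (y w) (g w) - θ) 0 + max (θ - min (y w) (g w)) 0) g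
      (XX u v) S0 S1 hF hS0X hS1X hSd
    by_cases ht2 : 2 ≤ θ
    · have h2 := base 1 1 0 0 le_rfl
        (fun w hw => by have := (q0 w hw).1; omega)
        (fun w hw => by have := (q1 w hw).1; omega) a (hak 0)
      omega
    by_cases ht1 : θ ≤ -1
    · have h2 := base 1 1 0 0 le_rfl
        (fun w hw => by have := (q0 w hw).1; omega)
        (fun w hw => by have := (q1 w hw).1; omega) a (hak 0)
      omega
    have ht : θ = 0 ∨ θ = 1 := by omega
    rcases ht with rfl | rfl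
    · rcases hc0 with rfl | rfl | rfl
      · have h2 := base 0 1 2 0 (by norm_num)
          (fun w hw => by have := q0 w hw; split_ifs <;> omega)
          (fun w hw => by have := q1 w hw; split_ifs <;> omega) a (hak 0)
        omega
      · have h2 := base 1 1 0 0 le_rfl
          (fun w hw => by have := q0 w hw; omega)
          (fun w hw => by have := q1 w hw; omega) a (hak 0)
        omega
      · have h2 := base 1 1 0 0 le_rfl
          (fun w hw => by have := q0 w hw; omega)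
          (fun w hw => by have := q1 w hw; omega) a (hak 0)
        omega
    · rcases hc0 with rfl | rfl | rfl
      · have h2 := base 1 1 0 0 le_rfl
          (fun w hw => by have := q0 w hw; omega)
          (fun w hw => by have := q1 w hw; omega) a (hak 0)
        omega
      · have h2 := base 1 0 2 1 (by norm_num)
          (fun w hw => by have := q0 w hw; split_ifs <;> omega)
          (fun w hw => by have := q1 w hw; split_ifs <;> omega) a (hak 1)
        omega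
      · have h2 := base 1 1 0 0 le_rfl
          (fun w hw => by have := q0 w hw; omega)
          (fun w hw => by have := q1 w hw; omega) a (hak 0)
        omega
  · -- central
    have h3 : ∑ w ∈ XX u v, |g w - y w| ≤ ∑ w ∈ XX u v, cost θ (y w) (g w) :=
      Finset.sum_le_sum fun w _ => cc_abs θ (y w) (g w)
    have base := lowb (fun w => |g w - y w|) g (XX u v) S0 S1 (fun w _ => abs_nonneg _) hS0X hS1X hSd
    rcases hc0 with rfl | rfl | rfl
    · have h2 := base 0 1 1 0 (by norm_num)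
        (fun w hw => by have := q0 w hw; rw [le_abs']; split_ifs <;> omega)
        (fun w hw => by have := q1 w hw; rw [le_abs']; split_ifs <;> omega) a (hak 0)
      omega
    · have h2 := base 1 0 1 1 (by norm_num)
        (fun w hw => by have := q0 w hw; rw [le_abs']; split_ifs <;> omega)
        (fun w hw => by have := q1 w hw; rw [le_abs']; split_ifs <;> omega) a (hak 1)
      omega
    · have h2 := base 1 1 0 0 le_rfl
        (fun w hw => by have := q0 w hw; rw [le_abs']; omega)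
        (fun w hw => by have := q1 w hw; rw [le_abs']; omega) a (hak 0)
      omega

end T3
end ZS44129
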