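import Mathlib
import Pool.Agent.Work.MP_44129c_co.T3.Defs

/-!
# MP_44129c_co/T3, NumC (size M): covering `ZMod M` by an interval and non zero switches

PROOF.  `M ∣ m`; let `φ : ZMod m → ZMod M` be `ZMod.castHom`.  `3 a = 3 b ↔ φ a = φ b` (both say that `M` divides the difference of
representatives).  So with `μ w = φ (ν w) ≠ 0` one needs: every element of `ZMod M` is `j + ∑_B μ` with `j ≤ E`, `B ⊆ F`.  Let `A F` be the
finset of these elements.  CLAIM: `min M (E + 1 + |F|) ≤ |A F|`.  Induction on `F`.  `F = ∅`: the `j ≤ E` give `min M (E + 1)` elements.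
`insert w F`: `A F ∪ (A F + μ w) ⊆ A (insert w F)`.  If `A F ≠ univ` then `A F + μ w ⊄ A F` (so one more element): suppose
`A F + μ w ⊆ A F`; then `A F + k μ w ⊆ A F` for all `k : ℕ`.  Let `g = gcd (μ w).val M`, a divisor of `M` with `g ≠ M` (`μ w ≠ 0`), so `2 g ≤ M`,
`g ≤ E + 1`.  Every multiple of `g` is a multiple `k μ w` in `ZMod M` (Bezout).  Every `z : ZMod M` is `j + g l` with `j = z.val % g ≤ E`;
`(j : ZMod M) ∈ A F` (`B = ∅`), so `z ∈ A F`: `A F = univ`.
-/

set_option autoImplicit false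

namespace ZS44129
namespace T3

open Finset

/-- a set closed under adding a nonzero `μ` which contains a long interval is everything. -/
private theorem NumC_univ {M : ℕ} [NeZero M] (A : Finset (ZMod M)) (μ : ZMod M) (hμ : μ ≠ 0)
    (E : ℕ) (h2 : M ≤ 2 * (E + 1)) (hA : ∀ j : ℕ, j ≤ E → (j : ZMod M) ∈ A)
    (hc : ∀ z ∈ A, z + μ ∈ A) (z : ZMod M) : z ∈ A := by
  have hk : ∀ k : ℕ, ∀ z ∈ A, z + (k : ZMod M) * μ ∈ A := by
    intro k
    induction k with
    | zero => intro z hz; simpa using hz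
    | succ k ih =>
      intro z hz
      have h1 := hc _ (ih z hz)
      have h3 : z + ((k + 1 : ℕ) : ZMod M) * μ = z + (k : ZMod M) * μ + μ := by
        push_cast
        ring
      rw [h3]
      exact h1
  have hM : 0 < M := Nat.pos_of_ne_zero (NeZero.ne M)
  have hv : 0 < μ.val := by
    rcases Nat.eq_zero_or_pos μ.val with h | h
    · exact absurd ((ZMod.val_eq_zero μ).1 h) hμ
    · exact h
  have hvM : μ.val < M := ZMod.val_lt μ
  have hgpos : 0 < Nat.gcd μ.val M := Nat.gcd_pos_of_pos_right _ hM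
  have hgle : Nat.gcd μ.val M ≤ μ.val := Nat.le_of_dvd hv (Nat.gcd_dvd_left _ _)
  obtain ⟨q, hq⟩ := Nat.gcd_dvd_right μ.val M
  have hg2 : 2 * Nat.gcd μ.val M ≤ M := by
    rcases Nat.lt_or_ge q 2 with h | h
    · interval_cases q
      · omega
      · omega
    · calc 2 * Nat.gcd μ.val M ≤ Nat.gcd μ.val M * q := by nlinarith
        _ = M := hq.symm
  have hbez : ∃ a : ZMod M, ((Nat.gcd μ.val M : ℕ) : ZMod M) = a * μ := by
    refine ⟨((Nat.gcdA μ.val M : ℤ) : ZMod M), ?_⟩
    have h3 := congrArg (fun t : ℤ => (t : ZMod M)) (Nat.gcd_eq_gcd_ab μ.val M)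
    push_cast at h3
    rw [ZMod.natCast_self, zero_mul, add_zero, ZMod.natCast_zmod_val] at h3
    rw [h3]
    ring
  obtain ⟨a, ha⟩ := hbez
  have hz : z = ((z.val % Nat.gcd μ.val M : ℕ) : ZMod M) +
      ((a.val * (z.val / Nat.gcd μ.val M) : ℕ) : ZMod M) * μ := by
    have h3 : (z.val : ZMod M) = z := ZMod.natCast_zmod_val z
    have h4 : (((z.val % Nat.gcd μ.val M) + Nat.gcd μ.val M * (z.val / Nat.gcd μ.val M) : ℕ) :
        ZMod M) = z := by
      rw [Nat.mod_add_div, h3]
    push_cast at h4 ⊢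
    rw [ZMod.natCast_zmod_val a]
    rw [ha] at h4
    linear_combination -h4
  rw [hz]
  apply hk
  apply hA
  have := Nat.mod_lt z.val hgpos
  omega

private theorem NumC_main {M : ℕ} [NeZero M] {ι : Type} [DecidableEq ι] (μ : ι → ZMod M) (E : ℕ)
    (h2 : M ≤ 2 * (E + 1)) (F : Finset ι) (hμ : ∀ w ∈ F, μ w ≠ 0) :
    ∃ A : Finset (ZMod M), min M (E + 1 + F.card) ≤ A.card ∧
      (∀ j : ℕ, j ≤ E → (j : ZMod M) ∈ A) ∧
      ∀ z ∈ A, ∃ j : ℕ, j ≤ E ∧ ∃ B : Finset ι, B ⊆ F ∧ z = (j : ZMod M) + ∑ w ∈ B, μ w := by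
  induction F using Finset.induction_on with
  | empty =>
    refine ⟨(Finset.range (E + 1)).image (fun j : ℕ => (j : ZMod M)), ?_, ?_, ?_⟩
    · have h3 : ((Finset.range (min M (E + 1))).image (fun j : ℕ => (j : ZMod M))).card =
          min M (E + 1) := by
        rw [Finset.card_image_of_injOn, Finset.card_range]
        intro a ha b hb hab
        simp only [Finset.coe_range, Set.mem_Iio] at ha hb
        have h4 := congrArg ZMod.val hab
        simp only at h4
        rw [ZMod.val_natCast_of_lt (by omega), ZMod.val_natCast_of_lt (by omega)] at h4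
        exact h4
      rw [Finset.card_empty, add_zero, ← h3]
      apply Finset.card_le_card
      apply Finset.image_subset_image
      intro x hx
      rw [Finset.mem_range] at hx ⊢
      omega
    · intro j hj
      exact Finset.mem_image.2 ⟨j, Finset.mem_range.2 (by omega), rfl⟩
    · intro z hz
      obtain ⟨j, hj, rfl⟩ := Finset.mem_image.1 hz
      exact ⟨j, by have := Finset.mem_range.1 hj; omega, ∅, Finset.Subset.refl _, by simp⟩
  | insert w F hw ih =>
    obtain ⟨A, hA1, hA2, hA3⟩ := ih (fun x hx => hμ x (Finset.mem_insert_of_mem hx))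
    have hA3' : ∀ z ∈ A, ∃ j : ℕ, j ≤ E ∧ ∃ B : Finset ι, B ⊆ insert w F ∧
        z = (j : ZMod M) + ∑ w ∈ B, μ w := by
      intro z hz
      obtain ⟨j, hj, B, hB, h3⟩ := hA3 z hz
      exact ⟨j, hj, B, hB.trans (Finset.subset_insert _ _), h3⟩
    by_cases hcl : ∀ z ∈ A, z + μ w ∈ A
    · have h3 : ∀ z, z ∈ A :=
        NumC_univ A (μ w) (hμ w (Finset.mem_insert_self _ _)) E h2 hA2 hcl
      refine ⟨A, ?_, hA2, hA3'⟩
      have h4 : A = Finset.univ := Finset.eq_univ_iff_forall.2 h3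
      rw [h4, Finset.card_univ, ZMod.card]
      exact min_le_left _ _
    · push Not at hcl
      obtain ⟨z0, hz0, hz1⟩ := hcl
      refine ⟨insert (z0 + μ w) A, ?_, fun j hj => Finset.mem_insert_of_mem (hA2 j hj), ?_⟩
      · rw [Finset.card_insert_of_notMem hz1, Finset.card_insert_of_notMem hw]
        omega
      · intro z hz
        rcases Finset.mem_insert.1 hz with rfl | hz
        · obtain ⟨j, hj, B, hB, h3⟩ := hA3 z0 hz0
          refine ⟨j, hj, insert w B, Finset.insert_subset_insert _ hB, ?_⟩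
          rw [Finset.sum_insert (fun h => hw (hB h)), h3]
          ring
        · exact hA3' z hz

private theorem NumC_three {m M : ℕ} [NeZero m] (hM : m = 3 * M) {δ : ZMod m} (h : 3 * δ = 0) :
    ∃ t : ℕ, t < 3 ∧ δ = ((M * t : ℕ) : ZMod m) := by
  have h1 : ((3 * δ.val : ℕ) : ZMod m) = 0 := by
    push_cast
    rw [ZMod.natCast_zmod_val]
    exact h
  rw [ZMod.natCast_eq_zero_iff] at h1
  have hlt := ZMod.val_lt δ
  have h2 : M ∣ δ.val := by
    have h3 : 3 * M ∣ 3 * δ.val := hM ▸ h1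
    exact (Nat.mul_dvd_mul_iff_left (by norm_num)).1 h3
  obtain ⟨t, ht⟩ := h2
  refine ⟨t, ?_, ?_⟩
  · by_contra h3
    have h4 : M * 3 ≤ M * t := Nat.mul_le_mul_left M (not_lt.1 h3)
    omega
  · rw [← ht, ZMod.natCast_zmod_val]

theorem num_cover {m M : ℕ} [NeZero m] (hM : m = 3 * M) {ι : Type} [DecidableEq ι] (F : Finset ι)
    (ν : ι → ZMod m) (hν : ∀ w ∈ F, 3 * ν w ≠ 0) (E : ℕ) (h1 : M ≤ E + 1 + F.card)
    (h2 : M ≤ 2 * (E + 1)) (τ : ZMod m) :
    ∃ j : ℕ, j ≤ E ∧ ∃ B : Finset ι, B ⊆ F ∧ 3 * ((j : ZMod m) + ∑ w ∈ B, ν w) = 3 * τ := by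
  have hm0 : m ≠ 0 := NeZero.ne m
  have hM0 : M ≠ 0 := by
    rintro rfl
    exact hm0 (by omega)
  haveI : NeZero M := ⟨hM0⟩
  have hdvd : M ∣ m := ⟨3, by omega⟩
  have key : ∀ x : ZMod m, ZMod.castHom hdvd (ZMod M) x = 0 → 3 * x = 0 := by
    intro x hx
    have h3 : ((x.val : ℕ) : ZMod M) = 0 := by
      have h4 : ZMod.castHom hdvd (ZMod M) ((x.val : ℕ) : ZMod m) = 0 := by
        rw [ZMod.natCast_zmod_val]
        exact hx
      rw [map_natCast] at h4
      exact h4
    rw [ZMod.natCast_eq_zero_iff] at h3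
    obtain ⟨t, ht⟩ := h3
    have h5 : 3 * x = ((3 * x.val : ℕ) : ZMod m) := by
      push_cast
      rw [ZMod.natCast_zmod_val]
    rw [h5, ZMod.natCast_eq_zero_iff, ht]
    exact ⟨t, by rw [hM]; ring⟩
  obtain ⟨A, hA1, hA2, hA3⟩ := NumC_main (fun w => ZMod.castHom hdvd (ZMod M) (ν w)) E h2 F
    (fun w hw h => hν w hw (key _ h))
  have hA : A = Finset.univ := by
    apply Finset.eq_univ_of_card
    rw [ZMod.card]
    have h3 : A.card ≤ M := by
      have h4 := Finset.card_le_univ A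
      rw [ZMod.card] at h4
      exact h4
    omega
  obtain ⟨j, hj, B, hB, h3⟩ := hA3 (ZMod.castHom hdvd (ZMod M) τ) (hA ▸ Finset.mem_univ _)
  refine ⟨j, hj, B, hB, ?_⟩
  have h4 := key ((j : ZMod m) + ∑ w ∈ B, ν w - τ) (by
    rw [map_sub, map_add, map_sum, map_natCast, h3, sub_self])
  linear_combination h4

/-- two non zero elements of order 3 give all elements of order 3. -/
theorem three_cover {m M : ℕ} [NeZero m] (hM : m = 3 * M) {δ δ₁ δ₂ : ZMod m} (h : 3 * δ = 0)
    (h1 : 3 * δ₁ = 0) (h2 : 3 * δ₂ = 0) (n1 : δ₁ ≠ 0) (n2 : δ₂ ≠ 0) :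
    δ = 0 ∨ δ = δ₁ ∨ δ = δ₂ ∨ δ = δ₁ + δ₂ := by
  obtain ⟨t, ht, rfl⟩ := NumC_three hM h
  obtain ⟨t1, ht1, rfl⟩ := NumC_three hM h1
  obtain ⟨t2, ht2, rfl⟩ := NumC_three hM h2
  have h3 : (3 : ZMod m) * (M : ZMod m) = 0 := by
    have h4 : ((3 * M : ℕ) : ZMod m) = 0 := by
      rw [← hM]
      exact ZMod.natCast_self m
    push_cast at h4
    exact h4
  have e1 : t1 ≠ 0 := by
    rintro rfl
    exact n1 (by simp)
  have e2 : t2 ≠ 0 := by
    rintro rfl
    exact n2 (by simp)
  interval_cases t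
  · left
    simp
  · interval_cases t1
    · exact absurd rfl e1
    · right; left; rfl
    · interval_cases t2
      · exact absurd rfl e2
      · right; right; left; rfl
      · right; right; right
        push_cast
        linear_combination -h3
  · interval_cases t1
    · exact absurd rfl e1
    · interval_cases t2
      · exact absurd rfl e2
      · right; right; right
        push_cast
        ring
      · right; right; left; rfl
    · right; left; rfl

/-- an element of order 3 is a multiple of `M`. -/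
theorem three_mul {m M : ℕ} [NeZero m] (hM : m = 3 * M) {δ : ZMod m} (h : 3 * δ = 0) :
    ∃ e : ℤ, 0 ≤ e ∧ e ≤ 2 ∧ δ = ((e * M : ℤ) : ZMod m) := by
  obtain ⟨t, ht, h1⟩ := NumC_three hM h
  refine ⟨t, by omega, by omega, ?_⟩
  rw [h1]
  push_cast
  ring

end T3
end ZS44129
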