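import Mathlib
import Pool.Agent.Work.MP_44129c_co.T3.NumC

/-!
# MP_44129c_co/T3, Cover (size M): the covering lemma

Pair `p r`, positions `X = XX p r` (`m + s - 2` of them), `m - 1` leaves, `s - 1` left out.  PROOF.  Let `z₁, δ₁` and `z₂, δ₂` come from the gadgets and
`R = X \ (S₁ ∪ S₂ ∪ E0 ∪ E1 ∪ F)`, all of it kept at `p`.  For `j ≤ E` keep at `p` a subset of `E1` with `j` and a subset of `E0` with `E - j` elements: the sum
`e` satisfies `3 e = 3 (E κ + j)` (`At c p r (E0 ∪ E1) E e`).  For `B ⊆ F` keep `F \ B` at `p` and `B` at `r`: the sum is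
`∑_F c p + ∑_B (c r w - c p w)`.  By `num_cover` (`ν w = c r w - c p w`) and the target
`τ = - c p r - z₁ - z₂ - E κ - ∑_F c p - ∑_R c p` there are `j`, `B` such that the total `T` (with `z₁`, `z₂`) satisfies `3 (- c p r - T) = 0`.
By `three_cover` `- c p r - T` is `0`, `δ₁`, `δ₂` or `δ₁ + δ₂`: use `z₁ + δ₁` and/or `z₂ + δ₂`.  The number of leaves is
`k₁ + k₂ + E + |F| + |R| = |X| - a₁ - a₂ - E = m - 1`.  So `At c p r X (m - 1) (- c p r)`: contradiction to `no_at`.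
-/

set_option autoImplicit false

namespace ZS44129
namespace T3

open Finset

variable {V : Type} [Fintype V] [DecidableEq V] {m : ℕ}

private theorem at_p (c : V → V → ZMod m) (p r : V) (S A : Finset V) (hA : A ⊆ S) {k : ℕ}
    (hk : A.card = k) : At c p r S k (∑ w ∈ A, c p w) :=
  ⟨A, ∅, hA, Finset.empty_subset _, Finset.disjoint_empty_right _,
    by rw [Finset.card_empty, add_zero, hk], by rw [Finset.sum_empty, add_zero]⟩

private theorem at_sw (c : V → V → ZMod m) (p r : V) (F B : Finset V) (hB : B ⊆ F) :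
    At c p r F F.card (∑ w ∈ F, c p w + ∑ w ∈ B, (c r w - c p w)) := by
  refine ⟨F \ B, B, Finset.sdiff_subset, hB, Finset.sdiff_disjoint, ?_, ?_⟩
  · rw [Finset.card_sdiff_of_subset hB]
    have := Finset.card_le_card hB
    omega
  · have h := Finset.sum_sdiff (f := fun w => c p w) hB
    rw [Finset.sum_sub_distrib, ← h]
    ring

private theorem card_XXp {s : ℕ} (hV : Fintype.card V = m + s) {p r : V} (hpr : p ≠ r) :
    (XX p r).card + 2 = m + s := by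
  have h1 : r ∈ (univ : Finset V).erase p := Finset.mem_erase.2 ⟨hpr.symm, Finset.mem_univ r⟩
  have h2 := Finset.card_pos.2 ⟨r, h1⟩
  have h3 : 0 < (univ : Finset V).card := Finset.card_pos.2 ⟨p, Finset.mem_univ p⟩
  unfold XX
  rw [Finset.card_erase_of_mem h1, Finset.card_erase_of_mem (Finset.mem_univ p)]
  rw [Finset.card_erase_of_mem (Finset.mem_univ p)] at h2
  rw [Finset.card_univ] at h2 h3 ⊢
  omega

theorem cover {M s : ℕ} [NeZero m] (hM : m = 3 * M) {c : V → V → ZMod m} (hz : ZSF m c)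
    (hV : Fintype.card V = m + s) {p r : V} (hpr : p ≠ r) {S₁ S₂ : Finset V} {k₁ k₂ a₁ a₂ : ℕ}
    (h1 : Gad c p r S₁ k₁ a₁) (h2 : Gad c p r S₂ k₂ a₂) (hS : Disjoint S₁ S₂)
    (E0 E1 F : Finset V) (hE0 : E0 ⊆ XX p r) (hE1 : E1 ⊆ XX p r) (hF : F ⊆ XX p r)
    (d1 : Disjoint (S₁ ∪ S₂) E0) (d2 : Disjoint (S₁ ∪ S₂) E1) (d3 : Disjoint (S₁ ∪ S₂) F)
    (d4 : Disjoint E0 E1) (d5 : Disjoint E0 F) (d6 : Disjoint E1 F) (E : ℕ)
    (c0 : E0.card = E) (c1 : E1.card = E) (κ : ZMod m) (k0 : ∀ w ∈ E0, 3 * c p w = 3 * κ)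
    (k1 : ∀ w ∈ E1, 3 * c p w = 3 * (κ + 1)) (hFn : ∀ w ∈ F, 3 * c r w ≠ 3 * c p w)
    (hs : a₁ + a₂ + E + 1 = s) (n1 : M ≤ E + 1 + F.card) (n2 : M ≤ 2 * (E + 1)) : False := by
  obtain ⟨z₁, δ₁, hδ₁, t₁, g₁, g₁'⟩ := h1.ex
  obtain ⟨z₂, δ₂, hδ₂, t₂, g₂, g₂'⟩ := h2.ex
  have D1 : Disjoint (S₁ ∪ S₂) (E0 ∪ E1) := Finset.disjoint_union_right.2 ⟨d1, d2⟩
  have D2 : Disjoint ((S₁ ∪ S₂) ∪ (E0 ∪ E1)) F :=
    Finset.disjoint_union_left.2 ⟨d3, Finset.disjoint_union_left.2 ⟨d5, d6⟩⟩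
  have hsub : (((S₁ ∪ S₂) ∪ (E0 ∪ E1)) ∪ F) ⊆ XX p r :=
    Finset.union_subset (Finset.union_subset (Finset.union_subset h1.sub h2.sub)
      (Finset.union_subset hE0 hE1)) hF
  have D3 : Disjoint (((S₁ ∪ S₂) ∪ (E0 ∪ E1)) ∪ F) (XX p r \ (((S₁ ∪ S₂) ∪ (E0 ∪ E1)) ∪ F)) :=
    Finset.disjoint_sdiff
  have hun : (((S₁ ∪ S₂) ∪ (E0 ∪ E1)) ∪ F) ∪ (XX p r \ (((S₁ ∪ S₂) ∪ (E0 ∪ E1)) ∪ F)) = XX p r :=
    Finset.union_sdiff_of_subset hsub
  have hcard : (XX p r).card = (k₁ + a₁) + (k₂ + a₂) + (E + E) + F.card +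
      (XX p r \ (((S₁ ∪ S₂) ∪ (E0 ∪ E1)) ∪ F)).card := by
    conv_lhs => rw [← hun]
    rw [Finset.card_union_of_disjoint D3, Finset.card_union_of_disjoint D2,
      Finset.card_union_of_disjoint D1, Finset.card_union_of_disjoint hS,
      Finset.card_union_of_disjoint d4, h1.cd, h2.cd, c0, c1]
  have hX := card_XXp hV hpr
  obtain ⟨j, hj, B, hB, hjB⟩ := num_cover hM F (fun w => c r w - c p w)
    (fun w hw h3 => hFn w hw (by rw [mul_sub] at h3; exact sub_eq_zero.1 h3)) E n1 n2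
    (-c p r - z₁ - z₂ - E * κ - ∑ w ∈ F, c p w -
      ∑ w ∈ XX p r \ (((S₁ ∪ S₂) ∪ (E0 ∪ E1)) ∪ F), c p w)
  obtain ⟨T1, hT1, hT1c⟩ := Finset.exists_subset_card_eq (s := E1) (n := j) (by omega)
  obtain ⟨T0, hT0, hT0c⟩ := Finset.exists_subset_card_eq (s := E0) (n := E - j) (by omega)
  have dT : Disjoint T0 T1 :=
    Finset.disjoint_of_subset_left hT0 (Finset.disjoint_of_subset_right hT1 d4)
  have gE := at_p c p r (E0 ∪ E1) (T0 ∪ T1) (Finset.union_subset_union hT0 hT1) (k := E)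
    (by rw [Finset.card_union_of_disjoint dT]; omega)
  have hE3 : 3 * ∑ w ∈ T0 ∪ T1, c p w = 3 * (E * κ + j) := by
    rw [Finset.sum_union dT, mul_add, Finset.mul_sum, Finset.mul_sum,
      Finset.sum_congr rfl (fun w hw => k0 w (hT0 hw)),
      Finset.sum_congr rfl (fun w hw => k1 w (hT1 hw)), Finset.sum_const, Finset.sum_const,
      hT0c, hT1c, nsmul_eq_mul, nsmul_eq_mul, Nat.cast_sub hj]
    ring
  have gF := at_sw c p r F B hB
  have gR := at_p c p r (XX p r \ (((S₁ ∪ S₂) ∪ (E0 ∪ E1)) ∪ F))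
    (XX p r \ (((S₁ ∪ S₂) ∪ (E0 ∪ E1)) ∪ F)) (Finset.Subset.refl _) rfl
  have key : ∀ x y : ZMod m, At c p r S₁ k₁ x → At c p r S₂ k₂ y →
      x + y + ∑ w ∈ T0 ∪ T1, c p w + (∑ w ∈ F, c p w + ∑ w ∈ B, (c r w - c p w)) +
        ∑ w ∈ XX p r \ (((S₁ ∪ S₂) ∪ (E0 ∪ E1)) ∪ F), c p w = - c p r → False := by
    intro x y hx hy hxy
    have g := ((((hx.union hy hS).union gE D1).union gF D2).union gR D3)
    rw [hun, hxy] at g
    exact no_at hz hpr (by omega) g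
  have h3 : 3 * (-c p r - (z₁ + z₂ + ∑ w ∈ T0 ∪ T1, c p w +
      (∑ w ∈ F, c p w + ∑ w ∈ B, (c r w - c p w)) +
        ∑ w ∈ XX p r \ (((S₁ ∪ S₂) ∪ (E0 ∪ E1)) ∪ F), c p w)) = 0 := by
    linear_combination -hjB - hE3
  rcases three_cover hM h3 t₁ t₂ hδ₁ hδ₂ with h4 | h4 | h4 | h4
  · exact key z₁ z₂ g₁ g₂ (by linear_combination -h4)
  · exact key (z₁ + δ₁) z₂ g₁' g₂ (by linear_combination -h4)
  · exact key z₁ (z₂ + δ₂) g₁ g₂' (by linear_combination -h4)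
  · exact key (z₁ + δ₁) (z₂ + δ₂) g₁' g₂' (by linear_combination -h4)

private theorem pick (A B : Finset V) {k b : ℕ} (hb : B.card ≤ b) (h : b + k ≤ A.card) :
    ∃ T : Finset V, T ⊆ A ∧ Disjoint B T ∧ T.card = k := by
  have h1 := Finset.card_le_card_sdiff_add_card (s := A) (t := B)
  obtain ⟨T, hT, hc⟩ := Finset.exists_subset_card_eq (s := A \ B) (n := k) (by omega)
  refine ⟨T, hT.trans Finset.sdiff_subset, ?_, hc⟩
  exact Finset.disjoint_of_subset_right hT Finset.disjoint_sdiff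

/-- the same with big sets: `G0`, `G1` (values `κ`, `κ + 1` modulo `P` at `p`) and enough positions where the two colours are
different modulo `P`.  PROOF.  `|F| = M - s + a₁ + a₂ ≤ Q` elements of `G.filter ..` outside `S₁ ∪ S₂`, then `E0 ⊆ G0`, `E1 ⊆ G1`
outside `S₁ ∪ S₂ ∪ F` with `E = s - 1 - a₁ - a₂` elements. -/
theorem cover2 {M s : ℕ} [NeZero m] (hM : m = 3 * M) {c : V → V → ZMod m} (hz : ZSF m c)
    (hV : Fintype.card V = m + s) {p r : V} (hpr : p ≠ r) {S₁ S₂ : Finset V} {k₁ k₂ a₁ a₂ : ℕ}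
    (h1 : Gad c p r S₁ k₁ a₁) (h2 : Gad c p r S₂ k₂ a₂) (hS : Disjoint S₁ S₂)
    (G0 G1 G : Finset V) (hG0 : G0 ⊆ XX p r) (hG1 : G1 ⊆ XX p r) (hG : G ⊆ XX p r)
    (hd : Disjoint G0 G1) (κ : ZMod m) (k0 : ∀ w ∈ G0, 3 * c p w = 3 * κ)
    (k1 : ∀ w ∈ G1, 3 * c p w = 3 * (κ + 1)) (q : ℕ) (hq : M = s + q + 1)
    (ha : a₁ + a₂ + 1 ≤ s) (hs2 : M ≤ 2 * (s - a₁ - a₂))
    (b0 : S₁.card + S₂.card + (q + 1 + a₁ + a₂) + (s - 1 - a₁ - a₂) ≤ G0.card)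
    (b1 : S₁.card + S₂.card + (q + 1 + a₁ + a₂) + (s - 1 - a₁ - a₂) ≤ G1.card)
    (bG : S₁.card + S₂.card + (q + 1 + a₁ + a₂) ≤
      (G.filter (fun w => 3 * c r w ≠ 3 * c p w)).card) : False := by
  obtain ⟨F, hF, dF, cF⟩ := pick (G.filter (fun w => 3 * c r w ≠ 3 * c p w)) (S₁ ∪ S₂)
    (k := q + 1 + a₁ + a₂) (Finset.card_union_le S₁ S₂) (by omega)
  have hSF : ((S₁ ∪ S₂) ∪ F).card ≤ S₁.card + S₂.card + (q + 1 + a₁ + a₂) := by
    have e1 := Finset.card_union_le (S₁ ∪ S₂) F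
    have e2 := Finset.card_union_le S₁ S₂
    omega
  obtain ⟨E0, hE0, dE0, cE0⟩ := pick G0 ((S₁ ∪ S₂) ∪ F) (k := s - 1 - a₁ - a₂) hSF (by omega)
  obtain ⟨E1, hE1, dE1, cE1⟩ := pick G1 ((S₁ ∪ S₂) ∪ F) (k := s - 1 - a₁ - a₂) hSF (by omega)
  rw [Finset.disjoint_union_left] at dE0 dE1
  exact cover hM hz hV hpr h1 h2 hS E0 E1 F (hE0.trans hG0) (hE1.trans hG1)
    ((hF.trans (Finset.filter_subset _ _)).trans hG) dE0.1 dE1.1 dF
    (Finset.disjoint_of_subset_left hE0 (Finset.disjoint_of_subset_right hE1 hd))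
    dE0.2.symm dE1.2.symm (s - 1 - a₁ - a₂) cE0 cE1 κ (fun w hw => k0 w (hE0 hw))
    (fun w hw => k1 w (hE1 hw)) (fun w hw => (Finset.mem_filter.1 (hF hw)).2)
    (by omega) (by omega) (by omega)

end T3
end ZS44129
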