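import Mathlib
import Pool.Agent.Work.MP_44129c_co.T3.Cover

/-!
# MP_44129c_co/T3, FewP (size S-M): a P-twin agrees with `u` modulo `P` at all but `q` positions

PROOF.  Suppose more than `q` positions `w ∈ XX u x` have `3 c x w ≠ 3 c u w`; let `F` be `q + 1` of them, `t₁ ≠ t₂` two elements of `T`
(not in `F`).  `{t₁}`, `{t₂}` are gadgets (`Gad c u x {t} 1 0`: `z = c u t`, `δ = c x t - c u t`).  `E0 ⊆ L0`, `E1 ⊆ H1` with `s - 1` elements outside
`F ∪ {t₁, t₂}`.  `cover` with `κ = 0`, `E = s - 1`.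
-/

set_option autoImplicit false

namespace ZS44129
namespace T3

open Finset

variable {V : Type} [Fintype V] [DecidableEq V] {m : ℕ}

omit [Fintype V] in
private theorem gad_one [Fintype V] {c : V → V → ZMod m} {u x t : V} (ht : t ∈ XX u x)
    (h1 : 3 * c x t = 3 * c u t) (h2 : c x t ≠ c u t) : Gad c u x {t} 1 0 := by
  refine ⟨Finset.singleton_subset_iff.2 ht, by simp, c u t, c x t - c u t, sub_ne_zero.2 h2, ?_,
    ?_, ?_⟩
  · rw [mul_sub, h1, sub_self]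
  · exact ⟨{t}, ∅, subset_rfl, Finset.empty_subset _, Finset.disjoint_empty_right _, by simp,
      by simp⟩
  · exact ⟨∅, {t}, Finset.empty_subset _, subset_rfl, Finset.disjoint_empty_left _, by simp,
      by simp⟩

private theorem pick_out {L B : Finset V} {k b : ℕ} (hB : B.card ≤ b) (hL : k + b ≤ L.card) :
    ∃ E ⊆ L, E.card = k ∧ Disjoint E B := by
  have h1 : k ≤ (L \ B).card := by
    have := Finset.le_card_sdiff B L
    omega
  obtain ⟨E, hE, hc⟩ := Finset.exists_subset_card_eq h1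
  refine ⟨E, hE.trans Finset.sdiff_subset, hc, ?_⟩
  exact Finset.disjoint_of_subset_left hE Finset.sdiff_disjoint

theorem few_nonP {M s : ℕ} [NeZero m] (hM : m = 3 * M) {c : V → V → ZMod m} (hz : ZSF m c)
    (hV : Fintype.card V = m + s) {u x : V} (hux : u ≠ x) (L0 H1 T : Finset V)
    (hL0 : L0 ⊆ XX u x) (hH1 : H1 ⊆ XX u x) (hT : T ⊆ XX u x) (h0 : ∀ w ∈ L0, c u w = 0)
    (h1 : ∀ w ∈ H1, c u w = 1) (hd : Disjoint L0 H1) (hT2 : 2 ≤ T.card)
    (hTP : ∀ w ∈ T, 3 * c x w = 3 * c u w ∧ c x w ≠ c u w) (q : ℕ) (hq : M = s + q + 1)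
    (hs : q + 1 ≤ s) (l0 : s + q + 2 ≤ L0.card) (l1 : s + q + 2 ≤ H1.card) :
    ((XX u x).filter (fun w => 3 * c x w ≠ 3 * c u w)).card ≤ q := by
  by_contra hcon
  push Not at hcon
  obtain ⟨F, hF, hFc⟩ := Finset.exists_subset_card_eq (Nat.succ_le_of_lt hcon)
  obtain ⟨t₁, ht₁, t₂, ht₂, hne⟩ := Finset.one_lt_card.1 (show 1 < T.card by omega)
  have hFX : F ⊆ XX u x := hF.trans (Finset.filter_subset _ _)
  have hFn : ∀ w ∈ F, 3 * c x w ≠ 3 * c u w := fun w hw => (Finset.mem_filter.1 (hF hw)).2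
  have hFT : ∀ t ∈ T, t ∉ F := fun t ht hf => hFn t hf (hTP t ht).1
  have hBc : (F ∪ ({t₁} ∪ {t₂})).card ≤ q + 3 := by
    have h1 := Finset.card_union_le F ({t₁} ∪ {t₂})
    have h2 := Finset.card_union_le ({t₁} : Finset V) {t₂}
    rw [Finset.card_singleton, Finset.card_singleton] at h2
    omega
  obtain ⟨E0, hE0, hE0c, hE0d⟩ := pick_out (L := L0) (k := s - 1) hBc (by omega)
  obtain ⟨E1, hE1, hE1c, hE1d⟩ := pick_out (L := H1) (k := s - 1) hBc (by omega)
  rw [Finset.disjoint_union_right] at hE0d hE1d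
  have hFd : Disjoint ({t₁} ∪ {t₂}) F := by
    rw [Finset.disjoint_union_left, Finset.disjoint_singleton_left, Finset.disjoint_singleton_left]
    exact ⟨hFT t₁ ht₁, hFT t₂ ht₂⟩
  refine cover hM hz hV hux (gad_one (hT ht₁) (hTP t₁ ht₁).1 (hTP t₁ ht₁).2)
    (gad_one (hT ht₂) (hTP t₂ ht₂).1 (hTP t₂ ht₂).2) (Finset.disjoint_singleton.2 hne)
    E0 E1 F (hE0.trans hL0) (hE1.trans hH1) hFX hE0d.2.symm hE1d.2.symm hFd
    (Finset.disjoint_of_subset_left hE0 (Finset.disjoint_of_subset_right hE1 hd))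
    hE0d.1 hE1d.1 (s - 1) hE0c hE1c 0 ?_ ?_ hFn (by omega) (by omega) (by omega)
  · intro w hw
    rw [h0 w (hE0 hw)]
  · intro w hw
    rw [h1 w (hE1 hw), zero_add]

end T3
end ZS44129
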