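import Mathlib
import Pool.Agent.Work.MP_44129c_co.T3.Defs

/-!
# MP_44129c_co/T3, GadC (size M): construction of gadgets for a pair `x v`

PROOF of `gad_pair`: keep `w` or keep `w'` (at `x`); `δ = c x w' - c x w`.
PROOF of `gad_own`.  `S = insert w (P0 ∪ P1)` has `2 |n| + 1` elements.  `n ≥ 0`: (I) `w` at `v` and `P0` at `x`: the sum is `y + n + n α M`;
(II) `w` at `x` and `P1` at `x`: the sum is `y + ε M + n (1 + β M)`; `δ = (II) - (I) = (ε + n (β - α)) M`.  `n < 0`: (I) `w` at `v` and `P1` at `x`: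
`y + n + |n| (1 + β M)`; (II) `w` and `P0` at `x`: `y + ε M + |n| α M`; `δ = (II) - (I) = (ε + n (β - α)) M` again.  Here `M ≥ 1`, `m = 3 M`, so an integer
multiple `e M` is `0` in `ZMod m` iff `3 ∣ e`, and `3 (e M) = 0`.
-/

set_option autoImplicit false

namespace ZS44129
namespace T3

open Finset

variable {V : Type} [Fintype V] [DecidableEq V] {m : ℕ}

theorem gad_pair {c : V → V → ZMod m} {x v w w' : V} (hw : w ∈ XX x v) (hw' : w' ∈ XX x v)
    (hne : w ≠ w') (h : c x w ≠ c x w') (h3 : 3 * c x w = 3 * c x w') :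
    Gad c x v {w, w'} 1 1 := by
  refine ⟨?_, ?_, c x w, c x w' - c x w, ?_, ?_, ?_, ?_⟩
  · intro t ht
    rcases mem_insert.1 ht with rfl | h1
    · exact hw
    · rw [mem_singleton.1 h1]; exact hw'
  · rw [card_pair hne]
  · intro h0
    exact h (sub_eq_zero.1 h0).symm
  · rw [mul_sub, h3, sub_self]
  · exact ⟨{w}, ∅, by simp, by simp, by simp, by simp, by simp⟩
  · exact ⟨{w'}, ∅, by simp, by simp, by simp, by simp, by simp⟩

private theorem cast_mul_ne {M : ℕ} [NeZero m] (hM : m = 3 * M) {e : ℤ} (he : ¬ (3 : ℤ) ∣ e) :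
    ((e * M : ℤ) : ZMod m) ≠ 0 := by
  intro h
  rw [ZMod.intCast_zmod_eq_zero_iff_dvd] at h
  have hM0 : (M : ℤ) ≠ 0 := by
    intro h0
    have : M = 0 := by exact_mod_cast h0
    exact NeZero.ne m (by rw [hM, this, mul_zero])
  have h2 : (3 : ℤ) * M ∣ e * M := by
    have : ((m : ℕ) : ℤ) = 3 * M := by rw [hM]; push_cast; ring
    rwa [this] at h
  exact he (Int.dvd_of_mul_dvd_mul_right hM0 h2)

private theorem three_cast {M : ℕ} (hM : m = 3 * M) (e : ℤ) :
    3 * ((e * M : ℤ) : ZMod m) = 0 := by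
  have h : (3 : ZMod m) * ((e * M : ℤ) : ZMod m) = ((e * m : ℤ) : ZMod m) := by
    rw [hM]; push_cast; ring
  rw [h]
  push_cast
  simp

private theorem sum_const_set {f : V → ZMod m} {P : Finset V} {z : ZMod m}
    (h : ∀ p ∈ P, f p = z) : ∑ p ∈ P, f p = (P.card : ZMod m) * z := by
  rw [Finset.sum_congr rfl h, Finset.sum_const, nsmul_eq_mul]

theorem gad_own {M : ℕ} [NeZero m] (hM : m = 3 * M) {c : V → V → ZMod m} {x v w : V}
    (hw : w ∈ XX x v) (y n ε α β : ℤ) (hx : c x w = ((y + ε * M : ℤ) : ZMod m))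
    (hv : c v w = ((y + n : ℤ) : ZMod m)) (P0 P1 : Finset V) (hP0 : P0 ⊆ XX x v)
    (hP1 : P1 ⊆ XX x v) (hw0 : w ∉ P0) (hw1 : w ∉ P1) (hd : Disjoint P0 P1)
    (e0 : ∀ p ∈ P0, c x p = ((α * M : ℤ) : ZMod m))
    (e1 : ∀ p ∈ P1, c x p = ((1 + β * M : ℤ) : ZMod m)) (c0 : P0.card = n.natAbs)
    (c1 : P1.card = n.natAbs) (hne : ¬ (3 : ℤ) ∣ ε + n * (β - α)) :
    Gad c x v (insert w (P0 ∪ P1)) (n.natAbs + 1) n.natAbs := by
  have hsub : insert w (P0 ∪ P1) ⊆ XX x v := by
    intro t ht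
    rcases mem_insert.1 ht with rfl | h1
    · exact hw
    · rcases mem_union.1 h1 with h2 | h2
      · exact hP0 h2
      · exact hP1 h2
  have hw01 : w ∉ P0 ∪ P1 := by
    intro h
    rcases mem_union.1 h with h2 | h2
    · exact hw0 h2
    · exact hw1 h2
  have hcard : (insert w (P0 ∪ P1)).card = n.natAbs + 1 + n.natAbs := by
    rw [card_insert_of_notMem hw01, card_union_of_disjoint hd, c0, c1]; ring
  have s0 : ∑ p ∈ P0, c x p = (n.natAbs : ZMod m) * ((α * M : ℤ) : ZMod m) := by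
    rw [sum_const_set e0, c0]
  have s1 : ∑ p ∈ P1, c x p = (n.natAbs : ZMod m) * ((1 + β * M : ℤ) : ZMod m) := by
    rw [sum_const_set e1, c1]
  have p0 : P0 ⊆ insert w (P0 ∪ P1) := fun t ht => mem_insert_of_mem (mem_union_left _ ht)
  have p1 : P1 ⊆ insert w (P0 ∪ P1) := fun t ht => mem_insert_of_mem (mem_union_right _ ht)
  have pw : {w} ⊆ insert w (P0 ∪ P1) := by
    intro t ht
    rw [mem_singleton.1 ht]
    exact mem_insert_self _ _
  have pw0 : insert w P0 ⊆ insert w (P0 ∪ P1) := by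
    intro t ht
    rcases mem_insert.1 ht with rfl | h1
    · exact mem_insert_self _ _
    · exact p0 h1
  have pw1 : insert w P1 ⊆ insert w (P0 ∪ P1) := by
    intro t ht
    rcases mem_insert.1 ht with rfl | h1
    · exact mem_insert_self _ _
    · exact p1 h1
  rcases le_total 0 n with hn | hn
  · have hnn : ((n.natAbs : ℕ) : ℤ) = n := Int.natAbs_of_nonneg hn
    have hnz : ((n.natAbs : ℕ) : ZMod m) = ((n : ℤ) : ZMod m) :=
      (Int.cast_natCast (R := ZMod m) n.natAbs).symm.trans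
        (congrArg (fun t : ℤ => (t : ZMod m)) hnn)
    refine ⟨hsub, hcard, ((y + n + n * (α * M) : ℤ) : ZMod m),
      (((ε + n * (β - α)) * M : ℤ) : ZMod m), cast_mul_ne hM hne, three_cast hM _, ?_, ?_⟩
    · refine ⟨P0, {w}, p0, pw, ?_, ?_, ?_⟩
      · rw [disjoint_singleton_right]; exact hw0
      · rw [c0, card_singleton]
      · rw [s0, sum_singleton, hv, hnz]; push_cast; ring
    · refine ⟨insert w P1, ∅, pw1, by simp, by simp, ?_, ?_⟩
      · rw [card_insert_of_notMem hw1, c1, card_empty]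
      · rw [sum_insert hw1, s1, hx, hnz, sum_empty]; push_cast; ring
  · have hnn : ((n.natAbs : ℕ) : ℤ) = - n := Int.ofNat_natAbs_of_nonpos hn
    have hnz : ((n.natAbs : ℕ) : ZMod m) = ((- n : ℤ) : ZMod m) :=
      (Int.cast_natCast (R := ZMod m) n.natAbs).symm.trans
        (congrArg (fun t : ℤ => (t : ZMod m)) hnn)
    refine ⟨hsub, hcard, ((y + n + (-n) * (1 + β * M) : ℤ) : ZMod m),
      (((ε + n * (β - α)) * M : ℤ) : ZMod m), cast_mul_ne hM hne, three_cast hM _, ?_, ?_⟩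
    · refine ⟨P1, {w}, p1, pw, ?_, ?_, ?_⟩
      · rw [disjoint_singleton_right]; exact hw1
      · rw [c1, card_singleton]
      · rw [s1, sum_singleton, hv, hnz]; push_cast; ring
    · refine ⟨insert w P0, ∅, pw0, by simp, by simp, ?_, ?_⟩
      · rw [card_insert_of_notMem hw0, c0, card_empty]
      · rw [sum_insert hw0, s0, hx, hnz, sum_empty]; push_cast; ring

end T3
end ZS44129
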