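import Mathlib
import Pool.Agent.Work.MP_44129c_co.T3.GadC

/-!
# MP_44129c_co/T3, Struct (size M): without two disjoint gadgets the twist is constant

`G0`, `G1` are disjoint sets of positions of the pair `x v`, `c x w = yy w + eps w * M` (`yy = 0` on `G0`, `1` on `G1`), `c v w = g w`.
PROOF.  (1) If `w, w' ∈ G0` have `eps w ≠ eps w'` (values in `{0, 1, 2}`) then `c x w ≠ c x w'` and `{w, w'}` is a gadget (`gad_pair`).
So there is `T0 ⊆ G0` with at most 2 elements such that `eps` is constant `= α` on `G0 \ T0`: if `eps` is not constant on `G0` take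
`T0 = {w, w'}` with different values; two elements of `G0 \ T0` with different values would give a second, disjoint gadget.  The same for `G1`: `T1`, `β`.
(2) Call `w ∈ (G0 ∪ G1) \ (T0 ∪ T1)` bad if `|g w - yy w| ≤ 3` and `¬ 3 ∣ eps w + (g w - yy w) (β - α)`.  Suppose `w ≠ w'` are bad.  Choose pairwise disjoint
sets `P0, P0' ⊆ G0 \ (T0 ∪ T1 ∪ {w, w'})`, `P1, P1' ⊆ G1 \ (T0 ∪ T1 ∪ {w, w'})` with `|n w|`, `|n w'| ≤ 3` elements: two disjoint gadgets
(`gad_own`) with at most 7 positions, contradiction.  So at most one `w` is bad; `T = T0 ∪ T1 ∪ {bad}`.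
-/

set_option autoImplicit false

namespace ZS44129
namespace T3

open Finset

variable {V : Type} [Fintype V] [DecidableEq V] {m : ℕ}

private theorem st_const {M : ℕ} [NeZero m] (hM : m = 3 * M) {c : V → V → ZMod m} {x v : V}
    (G : Finset V) (hG : G ⊆ XX x v) (eps : V → ℤ) (y : ℤ)
    (he : ∀ w ∈ G, 0 ≤ eps w ∧ eps w ≤ 2)
    (hx : ∀ w ∈ G, c x w = ((y + eps w * M : ℤ) : ZMod m))
    (hno : ∀ w w' p p' : V, w ∈ G → w' ∈ G → p ∈ G → p' ∈ G → Gad c x v {w, w'} 1 1 →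
      Gad c x v {p, p'} 1 1 → ¬ Disjoint ({w, w'} : Finset V) {p, p'}) (hc : 3 ≤ G.card) :
    ∃ (T : Finset V) (α : ℤ), T.card ≤ 2 ∧ ∀ w ∈ G \ T, eps w = α := by
  have hM0 : (M : ℤ) ≠ 0 := by
    intro h
    have h1 : M = 0 := by exact_mod_cast h
    exact NeZero.ne m (by rw [hM, h1, mul_zero])
  have h3 : ((3 * M : ℕ) : ZMod m) = 0 := by
    rw [← hM]
    exact ZMod.natCast_self m
  have hgad : ∀ w w', w ∈ G → w' ∈ G → eps w ≠ eps w' → Gad c x v {w, w'} 1 1 := by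
    intro w w' hw hw' hne
    refine gad_pair (hG hw) (hG hw') (fun h => hne (by rw [h])) ?_ ?_
    · rw [hx w hw, hx w' hw']
      intro h
      rw [ZMod.intCast_eq_intCast_iff_dvd_sub] at h
      obtain ⟨k, hk⟩ := h
      have hk' : (eps w' - eps w) * (M : ℤ) = (3 * k) * M := by
        have h4 : (m : ℤ) = 3 * M := by exact_mod_cast hM
        rw [h4] at hk
        linear_combination hk
      have h5 := mul_right_cancel₀ hM0 hk'
      have h6 := he w hw
      have h7 := he w' hw'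
      omega
    · rw [hx w hw, hx w' hw']
      push_cast at h3 ⊢
      linear_combination ((eps w : ZMod m) - (eps w' : ZMod m)) * h3
  by_cases hcon : ∃ w w', w ∈ G ∧ w' ∈ G ∧ eps w ≠ eps w'
  · obtain ⟨w, w', hw, hw', hne⟩ := hcon
    have hT2 : ({w, w'} : Finset V).card ≤ 2 := Finset.card_le_two
    have hpos : 0 < (G \ {w, w'}).card := by
      have h1 := Finset.le_card_sdiff ({w, w'} : Finset V) G
      omega
    obtain ⟨p, hp⟩ := Finset.card_pos.1 hpos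
    refine ⟨{w, w'}, eps p, hT2, ?_⟩
    intro q hq
    by_contra hqp
    rw [Finset.mem_sdiff] at hp hq
    refine hno w w' q p hw hw' hq.1 hp.1 (hgad w w' hw hw' hne) (hgad q p hq.1 hp.1 hqp) ?_
    rw [Finset.disjoint_left]
    intro z hz hz'
    rw [Finset.mem_insert, Finset.mem_singleton] at hz'
    rcases hz' with rfl | rfl
    · exact hq.2 hz
    · exact hp.2 hz
  · push Not at hcon
    obtain ⟨p, hp⟩ := Finset.card_pos.1 (by omega : 0 < G.card)
    refine ⟨∅, eps p, by simp, ?_⟩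
    intro q hq
    rw [Finset.mem_sdiff] at hq
    exact hcon q p hq.1 hp

private theorem st_two (G T : Finset V) (a b : ℕ) (ha : a ≤ 3) (hb : b ≤ 3)
    (hT : T.card ≤ 6) (hG : 20 ≤ G.card) : ∃ P Q : Finset V, P ⊆ G \ T ∧ Q ⊆ G \ T ∧
      Disjoint P Q ∧ P.card = a ∧ Q.card = b := by
  have h1 := Finset.le_card_sdiff T G
  obtain ⟨U, hU, hUc⟩ := Finset.exists_subset_card_eq (s := G \ T) (n := a + b) (by omega)
  obtain ⟨P, hP, hPc⟩ := Finset.exists_subset_card_eq (s := U) (n := a) (by omega)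
  refine ⟨P, U \ P, hP.trans hU, Finset.sdiff_subset.trans hU, Finset.disjoint_sdiff, hPc, ?_⟩
  rw [Finset.card_sdiff_of_subset hP]
  omega

theorem struct_twin {M : ℕ} [NeZero m] (hM : m = 3 * M) {c : V → V → ZMod m} {x v : V}
    (G0 G1 : Finset V) (hG0 : G0 ⊆ XX x v) (hG1 : G1 ⊆ XX x v) (hd : Disjoint G0 G1)
    (eps g : V → ℤ) (he : ∀ w ∈ G0 ∪ G1, 0 ≤ eps w ∧ eps w ≤ 2)
    (hx : ∀ w ∈ G0 ∪ G1, c x w = ((yy G0 w + eps w * M : ℤ) : ZMod m))
    (hv : ∀ w ∈ G0 ∪ G1, c v w = ((g w : ℤ) : ZMod m))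
    (hno : ∀ (S₁ S₂ : Finset V) (k₁ k₂ a₁ a₂ : ℕ), Gad c x v S₁ k₁ a₁ → Gad c x v S₂ k₂ a₂ →
      S₁ ⊆ G0 ∪ G1 → S₂ ⊆ G0 ∪ G1 → S₁.card ≤ 7 → S₂.card ≤ 7 → a₁ ≤ 3 → a₂ ≤ 3 →
      ¬ Disjoint S₁ S₂) (hc0 : 20 ≤ G0.card) (hc1 : 20 ≤ G1.card) :
    ∃ (T : Finset V) (α β : ℤ), T.card ≤ 5 ∧ (∀ w ∈ G0 \ T, eps w = α) ∧
      (∀ w ∈ G1 \ T, eps w = β) ∧
      ∀ w ∈ (G0 ∪ G1) \ T, 4 ≤ |g w - yy G0 w| ∨ (3 : ℤ) ∣ eps w + (g w - yy G0 w) * (β - α) := by
  have hy0 : ∀ w ∈ G0, yy G0 w = 0 := fun w hw => by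
    unfold yy
    rw [if_pos hw]
  have hy1 : ∀ w ∈ G1, yy G0 w = 1 := fun w hw => by
    unfold yy
    rw [if_neg (fun h => (Finset.disjoint_left.1 hd h) hw)]
  have hsub0 : G0 ⊆ G0 ∪ G1 := Finset.subset_union_left
  have hsub1 : G1 ⊆ G0 ∪ G1 := Finset.subset_union_right
  have hXX : G0 ∪ G1 ⊆ XX x v := Finset.union_subset hG0 hG1
  have hpair : ∀ w w' p p' : V, w ∈ G0 ∪ G1 → w' ∈ G0 ∪ G1 → p ∈ G0 ∪ G1 → p' ∈ G0 ∪ G1 →
      Gad c x v {w, w'} 1 1 → Gad c x v {p, p'} 1 1 →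
        ¬ Disjoint ({w, w'} : Finset V) {p, p'} := by
    intro w w' p p' hw hw' hp hp' h1 h2
    have c1 : ({w, w'} : Finset V).card ≤ 2 := Finset.card_le_two
    have c2 : ({p, p'} : Finset V).card ≤ 2 := Finset.card_le_two
    refine hno _ _ 1 1 1 1 h1 h2 ?_ ?_ (by omega) (by omega) (by norm_num) (by norm_num)
    · intro z hz
      rw [Finset.mem_insert, Finset.mem_singleton] at hz
      rcases hz with rfl | rfl
      · exact hw
      · exact hw'
    · intro z hz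
      rw [Finset.mem_insert, Finset.mem_singleton] at hz
      rcases hz with rfl | rfl
      · exact hp
      · exact hp'
  obtain ⟨T0, α, hT0, hα⟩ := st_const hM G0 hG0 eps 0 (fun w hw => he w (hsub0 hw))
    (fun w hw => by rw [hx w (hsub0 hw), hy0 w hw])
    (fun w w' p p' hw hw' hp hp' =>
      hpair w w' p p' (hsub0 hw) (hsub0 hw') (hsub0 hp) (hsub0 hp')) (by omega)
  obtain ⟨T1, β, hT1, hβ⟩ := st_const hM G1 hG1 eps 1 (fun w hw => he w (hsub1 hw))
    (fun w hw => by rw [hx w (hsub1 hw), hy1 w hw])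
    (fun w w' p p' hw hw' hp hp' =>
      hpair w w' p p' (hsub1 hw) (hsub1 hw') (hsub1 hp) (hsub1 hp')) (by omega)
  obtain ⟨Bad, hBad⟩ : ∃ Bad : Finset V, Bad = (G0 ∪ G1).filter (fun w =>
      ¬ (4 ≤ |g w - yy G0 w| ∨ (3 : ℤ) ∣ eps w + (g w - yy G0 w) * (β - α))) := ⟨_, rfl⟩
  have hBc : Bad.card ≤ 1 := by
    rw [Finset.card_le_one]
    intro w hw w' hw'
    by_contra hne
    rw [hBad, Finset.mem_filter] at hw hw'
    obtain ⟨hwG, hw⟩ := hw
    obtain ⟨hwG', hw'⟩ := hw'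
    push Not at hw hw'
    have hn : (g w - yy G0 w).natAbs ≤ 3 := by
      have h1 := hw.1
      rw [Int.abs_eq_natAbs] at h1
      omega
    have hn' : (g w' - yy G0 w').natAbs ≤ 3 := by
      have h1 := hw'.1
      rw [Int.abs_eq_natAbs] at h1
      omega
    obtain ⟨U, hU⟩ : ∃ U : Finset V, U = T0 ∪ T1 ∪ {w, w'} := ⟨_, rfl⟩
    have hUc : U.card ≤ 6 := by
      rw [hU]
      have h1 := Finset.card_union_le (T0 ∪ T1) {w, w'}
      have h2 := Finset.card_union_le T0 T1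
      have h3 : ({w, w'} : Finset V).card ≤ 2 := Finset.card_le_two
      omega
    have hwU : w ∈ U := by
      rw [hU]
      simp
    have hwU' : w' ∈ U := by
      rw [hU]
      simp
    have hT0U : T0 ⊆ U := by
      rw [hU]
      exact Finset.subset_union_left.trans Finset.subset_union_left
    have hT1U : T1 ⊆ U := by
      rw [hU]
      exact Finset.subset_union_right.trans Finset.subset_union_left
    obtain ⟨P0, Q0, hP0, hQ0, hPQ0, cP0, cQ0⟩ := st_two G0 U _ _ hn hn' hUc hc0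
    obtain ⟨P1, Q1, hP1, hQ1, hPQ1, cP1, cQ1⟩ := st_two G1 U _ _ hn hn' hUc hc1
    have hd' : ∀ A B : Finset V, A ⊆ G0 \ U → B ⊆ G1 \ U → Disjoint A B := by
      intro A B hA hB
      exact Finset.disjoint_of_subset_left (hA.trans Finset.sdiff_subset)
        (Finset.disjoint_of_subset_right (hB.trans Finset.sdiff_subset) hd)
    have hnm : ∀ (A G : Finset V) (z : V), A ⊆ G \ U → z ∈ U → z ∉ A := by
      intro A G z hA hz h
      exact (Finset.mem_sdiff.1 (hA h)).2 hz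
    have hE0 : ∀ p, p ∈ G0 \ U → c x p = ((α * M : ℤ) : ZMod m) := by
      intro p hp
      rw [Finset.mem_sdiff] at hp
      rw [hx p (hsub0 hp.1), hy0 p hp.1,
        hα p (Finset.mem_sdiff.2 ⟨hp.1, fun h => hp.2 (hT0U h)⟩), zero_add]
    have hE1 : ∀ p, p ∈ G1 \ U → c x p = ((1 + β * M : ℤ) : ZMod m) := by
      intro p hp
      rw [Finset.mem_sdiff] at hp
      rw [hx p (hsub1 hp.1), hy1 p hp.1,
        hβ p (Finset.mem_sdiff.2 ⟨hp.1, fun h => hp.2 (hT1U h)⟩)]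
    have hs0 : G0 \ U ⊆ G0 ∪ G1 := Finset.sdiff_subset.trans hsub0
    have hs1 : G1 \ U ⊆ G0 ∪ G1 := Finset.sdiff_subset.trans hsub1
    have gd := gad_own hM (hXX hwG) (yy G0 w) (g w - yy G0 w) (eps w) α β (hx w hwG)
      (by rw [hv w hwG, add_sub_cancel]) P0 P1 (hP0.trans (hs0.trans hXX))
      (hP1.trans (hs1.trans hXX)) (hnm P0 G0 w hP0 hwU) (hnm P1 G1 w hP1 hwU)
      (hd' P0 P1 hP0 hP1) (fun p hp => hE0 p (hP0 hp)) (fun p hp => hE1 p (hP1 hp)) cP0 cP1 hw.2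
    have gd' := gad_own hM (hXX hwG') (yy G0 w') (g w' - yy G0 w') (eps w') α β (hx w' hwG')
      (by rw [hv w' hwG', add_sub_cancel]) Q0 Q1 (hQ0.trans (hs0.trans hXX))
      (hQ1.trans (hs1.trans hXX)) (hnm Q0 G0 w' hQ0 hwU') (hnm Q1 G1 w' hQ1 hwU')
      (hd' Q0 Q1 hQ0 hQ1) (fun p hp => hE0 p (hQ0 hp)) (fun p hp => hE1 p (hQ1 hp)) cQ0 cQ1 hw'.2
    refine hno _ _ _ _ _ _ gd gd' ?_ ?_ ?_ ?_ hn hn' ?_
    · exact Finset.insert_subset hwG (Finset.union_subset (hP0.trans hs0) (hP1.trans hs1))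
    · exact Finset.insert_subset hwG' (Finset.union_subset (hQ0.trans hs0) (hQ1.trans hs1))
    · have h1 := Finset.card_insert_le w (P0 ∪ P1)
      have h2 := Finset.card_union_le P0 P1
      omega
    · have h1 := Finset.card_insert_le w' (Q0 ∪ Q1)
      have h2 := Finset.card_union_le Q0 Q1
      omega
    · rw [Finset.disjoint_insert_left, Finset.disjoint_insert_right,
        Finset.disjoint_union_left, Finset.disjoint_union_right, Finset.disjoint_union_right]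
      refine ⟨?_, ?_, ⟨hPQ0, hd' P0 Q1 hP0 hQ1⟩, ⟨(hd' Q0 P1 hQ0 hP1).symm, hPQ1⟩⟩
      · rw [Finset.mem_insert, Finset.mem_union, not_or, not_or]
        exact ⟨hne, hnm Q0 G0 w hQ0 hwU, hnm Q1 G1 w hQ1 hwU⟩
      · rw [Finset.mem_union, not_or]
        exact ⟨hnm P0 G0 w' hP0 hwU', hnm P1 G1 w' hP1 hwU'⟩
  refine ⟨T0 ∪ T1 ∪ Bad, α, β, ?_, ?_, ?_, ?_⟩
  · have h1 := Finset.card_union_le (T0 ∪ T1) Bad
    have h2 := Finset.card_union_le T0 T1
    omega
  · intro w hw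
    rw [Finset.mem_sdiff, Finset.mem_union, Finset.mem_union, not_or, not_or] at hw
    exact hα w (Finset.mem_sdiff.2 ⟨hw.1, hw.2.1.1⟩)
  · intro w hw
    rw [Finset.mem_sdiff, Finset.mem_union, Finset.mem_union, not_or, not_or] at hw
    exact hβ w (Finset.mem_sdiff.2 ⟨hw.1, hw.2.1.2⟩)
  · intro w hw
    rw [Finset.mem_sdiff] at hw
    have h1 : w ∉ Bad := fun h => hw.2 (Finset.mem_union_right _ h)
    rw [hBad, Finset.mem_filter, not_and, not_not] at h1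
    exact h1 hw.1

end T3
end ZS44129
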