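import Mathlib
import Pool.Agent.Work.MP_44129c_co.T3.Cover
import Pool.Agent.Work.MP_44129c_co.T3.Struct
import Pool.Agent.Work.MP_44129c_co.T3.Cost

/-!
# MP_44129c_co/T3, Twin (size M): there is no P-twin `x` of `u`

PROOF.  For `w ∈ G = G0 ∪ G1`: `3 (c x w - y w) = 0`, so (`three_mul`) `c x w = y w + eps w M` with `0 ≤ eps w ≤ 2`; `yy G0 w = y w` on `G`.
`hno` of `struct_twin`: two disjoint gadgets with at most 7 positions and at most 3 left out contradict `cover2` (`p = x`, `r = v`, `κ = 0`): its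
conditions are `q + 13 ≤ s`, `b0`, `b1` and `bG`: the number of `w ∈ G` with `3 c v w ≠ 3 c x w` is at least `q + 21`: `3 c x w = 3 y w`, `3 c v w = 3 g w`, and
`3 g w = 3 y w` in `ZMod m` iff `M ∣ g w - y w`; at least `D0 - (m + s - 2 - |G|)` elements of `G` have `g w ≠ y w`, and at most 2 elements of `XX u v` have
`g w ≠ y w`, `M ∣ g w - y w` (each has `|g w - y w| ≥ M`; `sum_abs`: `∑ |g w - y w| ≤ m - 2 < 3 M`).  `struct_twin` gives `T, α, β`.  `cost_contra`: `htw`: `c x w ≠ y w` implies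
`¬ 3 ∣ eps w`; `#{w ∈ G : g w = k} ≤ #{w ≠ v : c v w = k} ≤ a`.
-/

set_option autoImplicit false

namespace ZS44129
namespace T3

open Finset N

variable {V : Type} [Fintype V] [DecidableEq V] {m : ℕ}

theorem no_twin {M s q : ℕ} [NeZero m] (hM : m = 3 * M) (hq : M = s + q + 1)
    {c : V → V → ZMod m} (hz : ZSF m c) (hV : Fintype.card V = m + s) {u v x : V} {z0 : ℤ}
    {y g : V → ℤ} (hp : PLift c u v z0 y g) (hxu : x ≠ u) (hxv : x ≠ v) {a D0 : ℕ}
    (hcv : ∀ z : ZMod m, ((univ.erase v).filter (fun w => c v w = z)).card ≤ a)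
    (hD0 : D0 ≤ ((XX u v).filter (fun w => y w ≠ g w)).card) (G0 G1 : Finset V)
    (hG0 : G0 ⊆ (XX u v).erase x) (hG1 : G1 ⊆ (XX u v).erase x) (y0 : ∀ w ∈ G0, y w = 0)
    (y1 : ∀ w ∈ G1, y w = 1) (h3 : ∀ w ∈ G0 ∪ G1, 3 * c x w = 3 * ((y w : ℤ) : ZMod m))
    (htw : 6 ≤ ((G0 ∪ G1).filter (fun w => c x w ≠ ((y w : ℤ) : ZMod m))).card)
    (hs : q + 13 ≤ s) (b0 : s + q + 14 ≤ G0.card) (b1 : s + q + 14 ≤ G1.card)
    (n1 : m + 4 ≤ G0.card + G1.card) (n2 : m + 14 + 2 * a ≤ G0.card + 2 * (G0.card + G1.card))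
    (n2' : m + 14 + 2 * a ≤ G1.card + 2 * (G0.card + G1.card))
    (n3 : m + 10 + a ≤ G0.card + (G0.card + G1.card) + s)
    (n3' : m + 10 + a ≤ G1.card + (G0.card + G1.card) + s)
    (nD : m + s + q + 21 ≤ D0 + G0.card + G1.card) (hD : m < 2 * s + D0) : False := by
  classical
  set X := XX u v with hXdef
  have hG0X : G0 ⊆ X := hG0.trans (erase_subset _ _)
  have hG1X : G1 ⊆ X := hG1.trans (erase_subset _ _)
  have hd : Disjoint G0 G1 := by
    rw [disjoint_left]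
    intro w h0 h1
    have e0 := y0 w h0
    have e1 := y1 w h1
    omega
  have hGX : G0 ∪ G1 ⊆ X := union_subset hG0X hG1X
  have huv : ∀ w ∈ G0 ∪ G1, w ≠ u ∧ w ≠ v ∧ w ≠ x := by
    intro w hw
    have h1 := mem_XX.1 (hGX hw)
    refine ⟨h1.1, h1.2, ?_⟩
    rcases mem_union.1 hw with h2 | h2
    · exact ne_of_mem_erase (hG0 h2)
    · exact ne_of_mem_erase (hG1 h2)
  have hG0xv : G0 ⊆ XX x v := by
    intro w hw
    have h1 := huv w (mem_union_left _ hw)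
    exact mem_XX.2 ⟨h1.2.2, h1.2.1⟩
  have hG1xv : G1 ⊆ XX x v := by
    intro w hw
    have h1 := huv w (mem_union_right _ hw)
    exact mem_XX.2 ⟨h1.2.2, h1.2.1⟩
  have hyy : ∀ w ∈ G0 ∪ G1, yy G0 w = y w := by
    intro w hw
    by_cases h0 : w ∈ G0
    · unfold yy
      rw [if_pos h0, y0 w h0]
    · have h1 : w ∈ G1 := (mem_union.1 hw).resolve_left h0
      unfold yy
      rw [if_neg h0, y1 w h1]
  have hex : ∀ w, ∃ e : ℤ, w ∈ G0 ∪ G1 →
      0 ≤ e ∧ e ≤ 2 ∧ c x w = ((yy G0 w + e * M : ℤ) : ZMod m) := by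
    intro w
    by_cases hw : w ∈ G0 ∪ G1
    · have h1 : 3 * (c x w - ((y w : ℤ) : ZMod m)) = 0 := by
        rw [mul_sub, h3 w hw, sub_self]
      obtain ⟨e, he0, he2, he⟩ := three_mul hM h1
      refine ⟨e, fun _ => ⟨he0, he2, ?_⟩⟩
      rw [hyy w hw]
      have h2 : c x w = ((y w : ℤ) : ZMod m) + ((e * M : ℤ) : ZMod m) := by
        rw [← he]; ring
      rw [h2]; push_cast; ring
    · exact ⟨0, fun h => absurd h hw⟩
  choose eps heps using hex
  have hvg : ∀ w ∈ G0 ∪ G1, c v w = ((g w : ℤ) : ZMod m) := by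
    intro w hw
    have h1 := huv w hw
    exact (hp.hx w h1.1 h1.2.1).symm
  have hm2 : 2 ≤ m := by omega
  have hM3 : (m : ℤ) = 3 * M := by rw [hM]; push_cast; ring
  have hMpos : (0 : ℤ) < M := by
    have : 0 < M := by omega
    exact_mod_cast this
  have hDX : m < 2 * s + ((XX u v).filter (fun w => y w ≠ g w)).card :=
    lt_of_lt_of_le hD (Nat.add_le_add_left hD0 _)
  have hsum := sum_abs hp hV (by omega) hm2 hDX
  -- few elements with `M ∣ g w - y w`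
  have hfew : (X.filter (fun w => y w ≠ g w ∧ (M : ℤ) ∣ g w - y w)).card ≤ 2 := by
    by_contra hcon
    push Not at hcon
    have h1 : (X.filter (fun w => y w ≠ g w ∧ (M : ℤ) ∣ g w - y w)).card • (M : ℤ) ≤
        ∑ w ∈ X.filter (fun w => y w ≠ g w ∧ (M : ℤ) ∣ g w - y w), |g w - y w| := by
      apply Finset.card_nsmul_le_sum
      intro w hw
      have h2 := (mem_filter.1 hw).2
      have h3' : g w - y w ≠ 0 := fun h => h2.1 (by omega)
      exact Int.le_of_dvd (abs_pos.2 h3') ((dvd_abs _ _).2 h2.2)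
    have h2 : ∑ w ∈ X.filter (fun w => y w ≠ g w ∧ (M : ℤ) ∣ g w - y w), |g w - y w| ≤
        ∑ w ∈ X, |g w - y w| :=
      Finset.sum_le_sum_of_subset_of_nonneg (filter_subset _ _) (fun _ _ _ => abs_nonneg _)
    rw [nsmul_eq_mul] at h1
    have h3' : (3 : ℤ) ≤ ((X.filter (fun w => y w ≠ g w ∧ (M : ℤ) ∣ g w - y w)).card : ℤ) := by
      exact_mod_cast hcon
    have h4 : (3 : ℤ) * M ≤ ((X.filter (fun w => y w ≠ g w ∧ (M : ℤ) ∣ g w - y w)).card : ℤ) * M :=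
      mul_le_mul_of_nonneg_right h3' hMpos.le
    linarith
  have hXc : X.card + 2 = m + s := by
    rw [hXdef, card_XX hp.ne, hV]
  have hGc : (G0 ∪ G1).card = G0.card + G1.card := card_union_of_disjoint hd
  have hbad : q + 21 ≤ ((G0 ∪ G1).filter (fun w => 3 * c v w ≠ 3 * c x w)).card := by
    have hsub : X.filter (fun w => y w ≠ g w) ⊆
        ((G0 ∪ G1).filter (fun w => 3 * c v w ≠ 3 * c x w)) ∪
          (X.filter (fun w => y w ≠ g w ∧ (M : ℤ) ∣ g w - y w) ∪ (X \ (G0 ∪ G1))) := by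
      intro w hw
      obtain ⟨hwX, hwy⟩ := mem_filter.1 hw
      by_cases hwG : w ∈ G0 ∪ G1
      · by_cases hdv : (M : ℤ) ∣ g w - y w
        · exact mem_union_right _ (mem_union_left _ (mem_filter.2 ⟨hwX, hwy, hdv⟩))
        · refine mem_union_left _ (mem_filter.2 ⟨hwG, ?_⟩)
          intro heq
          apply hdv
          rw [h3 w hwG, hvg w hwG] at heq
          have h5 : ((3 * (g w - y w) : ℤ) : ZMod m) = 0 := by
            push_cast
            rw [mul_sub, heq, sub_self]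
          rw [ZMod.intCast_zmod_eq_zero_iff_dvd, hM3] at h5
          exact Int.dvd_of_mul_dvd_mul_left (by norm_num : (3 : ℤ) ≠ 0) h5
      · exact mem_union_right _ (mem_union_right _ (mem_sdiff.2 ⟨hwX, hwG⟩))
    have h1 := card_le_card hsub
    have h2 := card_union_le ((G0 ∪ G1).filter (fun w => 3 * c v w ≠ 3 * c x w))
          (X.filter (fun w => y w ≠ g w ∧ (M : ℤ) ∣ g w - y w) ∪ (X \ (G0 ∪ G1)))
    have h3' := card_union_le (X.filter (fun w => y w ≠ g w ∧ (M : ℤ) ∣ g w - y w))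
      (X \ (G0 ∪ G1))
    have h4 : (X \ (G0 ∪ G1)).card = X.card - (G0 ∪ G1).card := card_sdiff_of_subset hGX
    have h5 : (G0 ∪ G1).card ≤ X.card := card_le_card hGX
    omega
  have hno : ∀ (S₁ S₂ : Finset V) (k₁ k₂ a₁ a₂ : ℕ), Gad c x v S₁ k₁ a₁ → Gad c x v S₂ k₂ a₂ →
      S₁ ⊆ G0 ∪ G1 → S₂ ⊆ G0 ∪ G1 → S₁.card ≤ 7 → S₂.card ≤ 7 → a₁ ≤ 3 → a₂ ≤ 3 →
      ¬ Disjoint S₁ S₂ := by
    intro S₁ S₂ k₁ k₂ a₁ a₂ g1 g2 _ _ c1 c2 b1' b2' hdis
    refine cover2 hM hz hV hxv g1 g2 hdis G0 G1 (G0 ∪ G1) hG0xv hG1xv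
      (union_subset hG0xv hG1xv) hd 0 ?_ ?_ q hq (by omega) (by omega) (by omega) (by omega)
      (by omega)
    · intro w hw
      rw [h3 w (mem_union_left _ hw), y0 w hw]
      push_cast; ring
    · intro w hw
      rw [h3 w (mem_union_right _ hw), y1 w hw]
      push_cast; ring
  obtain ⟨T, α, β, hT, e0, e1, hst⟩ := struct_twin hM (x := x) (v := v) G0 G1 hG0xv hG1xv hd eps g
    (fun w hw => ⟨(heps w hw).1, (heps w hw).2.1⟩) (fun w hw => (heps w hw).2.2) hvg hno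
    (by omega) (by omega)
  refine cost_contra hp hV (by omega) hm2 hDX G0 G1 hG0X hG1X hd y0 y1 eps T hT α β e0 e1 ?_ ?_ a
    ?_ n1 n2 n2' n3 n3'
  · intro w hw
    have h1 := hst w hw
    rwa [hyy w (mem_sdiff.1 hw).1] at h1
  · refine htw.trans (card_le_card ?_)
    intro w hw
    obtain ⟨hwG, hne⟩ := mem_filter.1 hw
    refine mem_filter.2 ⟨hwG, ?_⟩
    rintro ⟨k, hk⟩
    apply hne
    rw [(heps w hwG).2.2, hyy w hwG, hk]
    have h5 : ((3 * k * (M : ℤ) : ℤ) : ZMod m) = 0 := by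
      rw [ZMod.intCast_zmod_eq_zero_iff_dvd, hM3]
      exact ⟨k, by ring⟩
    have h6 : ((y w + 3 * k * (M : ℤ) : ℤ) : ZMod m) =
        ((y w : ℤ) : ZMod m) + ((3 * k * (M : ℤ) : ℤ) : ZMod m) := Int.cast_add _ _
    rw [h6, h5, add_zero]
  · intro k
    refine (card_le_card ?_).trans (hcv ((k : ℤ) : ZMod m))
    intro w hw
    obtain ⟨hwG, hk⟩ := mem_filter.1 hw
    refine mem_filter.2 ⟨mem_erase.2 ⟨(huv w hwG).2.1, mem_univ _⟩, ?_⟩
    rw [hvg w hwG, hk]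

end T3
end ZS44129
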