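import Mathlib
import Pool.Agent.Work.MP_44129c_co.T3.Twin
import Pool.Agent.Work.MP_44129c_co.T3.FewP
import Pool.Agent.Work.MP_44129c_co.T3.Cube3

/-!
# MP_44129c_co/T3, Excl (size M): the second alternative of `cube3` is impossible

`Ptn`: `v` is a partner of `u` (integer lift of the pair `u v` whose `u`-part is `y`), few outliers, small colour classes.
`Num3`: the numerical conditions (`n = m + s - 1`; `m = 3 M`, `M = s + q + 1`).
PROOF of `excl3`.  Suppose `m = 3 M`, `#{w ∈ K₀ : ¬ M ∣ D w} + s + 1 ≤ M`, `D w = 1 - rep .. ∈ [1, lo - 1]` on `K₀ ⊆ KK ⊆ HH`, `|K₀| = lo ≥ s + 2`.  So `M = s + q + 1` and at least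
`s + 2 - q` elements `w ∈ K₀` have `M ∣ D w`, `1 ≤ D w < lo ≤ m`, hence `c x w = 1 - D w`, `3 c x w = 3`, `c x w ≠ 1`.  Let `T` be those with `y w = 1`: `|T| ≥ s + 2 - q - E0 ≥ 7`
(elements of `HH` are `≠ u`, `≠ x` as `x ∈ LL`).
`few_nonP` with `L0 = {w ∈ XX u x : y w = 0}`, `H1 = {w ∈ XX u x : y w = 1}` (`c u w = y w`): `#{y = 0} ≥ m + s - 1 - a - E0` because `#{y = 1} ≤ a` (colour class of `1` at `u`; `m ≥ 2`),
in the same way `#{y = 1}`; so at most `q` positions `w ∈ XX u x` have `3 c x w ≠ 3 c u w`.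
If `x = v`: see below; otherwise `G0 = {w ∈ (XX u v).erase x : y w = 0, 3 c x w = 0}`, `G1 = {w ∈ (XX u v).erase x : y w = 1, 3 c x w = 3}`: `|G0|, |G1| ≥ m + s - 1 - a - E0 - 2 - q`,
`|G0| + |G1| ≥ m + s - 3 - E0 - q`, at least `|T| - 1 ≥ 6` elements of `G1` have `c x w ≠ 1`: `no_twin`.
If `x = v`: for `w ∈ XX u v` with `3 c v w = 3 c u w` we have `M ∣ g w - y w`, so at least `(m + s - 2) - q` positions have `M ∣ g w - y w` and at most 2 of them `g w ≠ y w`
(`sum_abs`); so `D0 ≤ #{g ≠ y} ≤ q + 2`: contradiction to `d0`.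
-/

set_option autoImplicit false

namespace ZS44129
namespace T3

open Finset E N

variable {V : Type} [Fintype V] [DecidableEq V] {m : ℕ}

/-- `v` is a partner of `u`. -/
structure Ptn (c : V → V → ZMod m) (u v : V) (y g : V → ℤ) (z0 : ℤ) (a E0 D0 : ℕ) : Prop where
  pl : PLift c u v z0 y g
  out : ((univ.erase u).filter (fun w => y w ≠ 0 ∧ y w ≠ 1)).card ≤ E0
  cu : ∀ z : ZMod m, ((univ.erase u).filter (fun w => c u w = z)).card ≤ a
  cv : ∀ z : ZMod m, ((univ.erase v).filter (fun w => c v w = z)).card ≤ a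
  own : D0 ≤ ((XX u v).filter (fun w => y w ≠ g w)).card

/-- numerical conditions. -/
structure Num3 (m s q a E0 D0 : ℕ) : Prop where
  m3 : m = 3 * (s + q + 1)
  m4 : m ≤ 4 * s
  e1 : q + 13 ≤ s
  e2 : E0 + q + 9 ≤ s
  e3 : a + E0 + 2 * q + 17 ≤ m
  e4 : 3 * a + 3 * E0 + 3 * q + 23 ≤ 2 * m + 3 * s
  e5 : 2 * a + 2 * E0 + 2 * q + 16 ≤ m + 3 * s
  d0 : 2 * q + E0 + 26 ≤ D0
  d1 : m < 2 * s + D0
  ev : ∀ M : ℕ, m = 2 * M → m + 4 ≤ 4 * s ∧ M * M + s < s * s + M * s + M

/-- an integer whose triple vanishes modulo `3 M` is divisible by `M`. -/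
private theorem dvd_of_three {M : ℕ} (hM : m = 3 * M) {e : ℤ}
    (h : (3 : ZMod m) * ((e : ℤ) : ZMod m) = 0) : (M : ℤ) ∣ e := by
  have h1 : (((3 * e : ℤ)) : ZMod m) = 0 := by
    push_cast
    exact h
  have h2 := (ZMod.intCast_zmod_eq_zero_iff_dvd (3 * e) m).1 h1
  rw [hM] at h2
  push_cast at h2
  exact (mul_dvd_mul_iff_left (by norm_num : (3 : ℤ) ≠ 0)).1 h2

theorem excl3 [NeZero m] {c : V → V → ZMod m} (hsym : ∀ x w, c x w = c w x) (hz : ZSF m c)
    {u : V} {y : V → ℤ} (h : SL c u y) {s : ℕ} (hV : Fintype.card V = m + s)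
    (hL : exL u y + 2 ≤ s) (hH : exH u y + 2 ≤ s) {v : V} {g : V → ℤ} {z0 : ℤ}
    {q a E0 D0 : ℕ} (hp : Ptn c u v y g z0 a E0 D0) (hn : Num3 m s q a E0 D0) {x : V}
    (hx : x ∈ LL u y) (hlo : (s : ℤ) + 2 ≤ lo m u y) {K₀ : Finset V} (hK : K₀ ⊆ KK c u y x)
    (hc : (K₀.card : ℤ) = lo m u y) {M : ℕ} (hM : m = 3 * M)
    (hk : (K₀.filter (fun w => ¬ (M : ℤ) ∣ 1 - rep (2 - lo m u y) (c x w))).card + s + 1 ≤ M) :
    False := by
  have m3 := hn.m3
  have m4 := hn.m4
  have e1 := hn.e1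
  have e2 := hn.e2
  have e3 := hn.e3
  have e4 := hn.e4
  have e5 := hn.e5
  have d0 := hn.d0
  have d1 := hn.d1
  have hMq : M = s + q + 1 := by omega
  haveI : Fact (1 < m) := ⟨by omega⟩
  have hxL := mem_filter.1 hx
  have hxu : x ≠ u := (mem_erase.1 hxL.1).1
  have hxy : y x ≤ 0 := hxL.2
  -- lo ≤ m
  have hexL0 : 0 ≤ exL u y := by
    unfold exL
    apply sum_nonneg
    intro w hw
    have := (mem_filter.1 hw).2
    omega
  have hlom : lo m u y ≤ m := by
    unfold lo
    have : (0 : ℤ) ≤ ((LL u y).card : ℤ) := by positivity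
    omega
  -- K₀ facts
  have hK1 : ∀ w ∈ K₀, w ≠ u ∧ 1 ≤ y w ∧ rep (2 - lo m u y) (c x w) ≤ 0 := by
    intro w hw
    have h1 := mem_filter.1 (hK hw)
    have h2 := mem_filter.1 h1.1
    exact ⟨(mem_erase.1 h2.1).1, h2.2, h1.2⟩
  obtain ⟨T, hT⟩ : ∃ T : Finset V, T =
      (K₀.filter (fun w => ¬ ¬ (M : ℤ) ∣ 1 - rep (2 - lo m u y) (c x w))).filter
        (fun w => y w = 1) := ⟨_, rfl⟩
  have hTc : 7 ≤ T.card := by
    have h1 := card_filter_add_card_filter_not (s := K₀)
      (fun w => ¬ (M : ℤ) ∣ 1 - rep (2 - lo m u y) (c x w))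
    have h2 := card_filter_add_card_filter_not
      (s := K₀.filter (fun w => ¬ ¬ (M : ℤ) ∣ 1 - rep (2 - lo m u y) (c x w)))
      (fun w => y w = 1)
    rw [← hT] at h2
    have h3 : ((K₀.filter (fun w => ¬ ¬ (M : ℤ) ∣ 1 - rep (2 - lo m u y) (c x w))).filter
        (fun w => ¬ y w = 1)).card ≤ E0 := by
      refine le_trans (card_le_card ?_) hp.out
      intro w hw
      have h4 := mem_filter.1 hw
      have h5 := hK1 w (mem_filter.1 h4.1).1
      refine mem_filter.2 ⟨mem_erase.2 ⟨h5.1, mem_univ _⟩, ?_, h4.2⟩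
      intro h6
      have := h5.2.1
      omega
    have h4 : s + 2 ≤ K₀.card := by
      have : ((s + 2 : ℕ) : ℤ) ≤ K₀.card := by
        rw [hc]
        push_cast
        exact hlo
      exact_mod_cast this
    omega
  have hTw : ∀ w ∈ T, w ≠ u ∧ w ≠ x ∧ y w = 1 ∧ 3 * c x w = 3 ∧ c x w ≠ 1 := by
    intro w hw
    rw [hT] at hw
    have h1 := mem_filter.1 hw
    have h2 := mem_filter.1 h1.1
    have h3 := not_not.1 h2.2
    have h4 := hK1 w h2.1
    obtain ⟨D, hD⟩ : ∃ D : ℤ, D = 1 - rep (2 - lo m u y) (c x w) := ⟨_, rfl⟩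
    rw [← hD] at h3
    have h5 : 1 ≤ D := by omega
    have h6 : D + 1 ≤ m := by
      have := rep_ge (2 - lo m u y) (c x w)
      omega
    have h7 : c x w = ((1 - D : ℤ) : ZMod m) := by
      have h8 := rep_cast (2 - lo m u y) (c x w)
      have h9 : rep (2 - lo m u y) (c x w) = 1 - D := by omega
      rw [h9] at h8
      exact h8.symm
    refine ⟨h4.1, ?_, h1.2, ?_, ?_⟩
    · rintro rfl
      have := h1.2
      omega
    · obtain ⟨k, hk'⟩ := h3
      have h8 : (3 : ZMod m) * ((D : ℤ) : ZMod m) = 0 := by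
        have h9 : (((3 * D : ℤ)) : ZMod m) = 0 := by
          rw [ZMod.intCast_zmod_eq_zero_iff_dvd, hk', hM]
          exact ⟨k, by push_cast; ring⟩
        push_cast at h9
        exact h9
      rw [h7]
      push_cast
      linear_combination -h8
    · intro h8
      rw [h7] at h8
      have h9 : ((D : ℤ) : ZMod m) = 0 := by
        push_cast at h8
        linear_combination -h8
      have h10 := (ZMod.intCast_zmod_eq_zero_iff_dvd D m).1 h9
      have h11 := Int.le_of_dvd (by omega) h10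
      omega
  have hcu : ∀ w, w ≠ u → ((y w : ℤ) : ZMod m) = c u w := h.cast
  have hXux : (XX u x).card + 2 = m + s := by
    rw [card_XX hxu.symm, hV]
  -- classes of u
  have hcls : ∀ (W : Finset V) (z : ℤ), (∀ w ∈ W, w ≠ u ∧ y w = z) → W.card ≤ a := by
    intro W z hW
    refine le_trans (card_le_card ?_) (hp.cu ((z : ℤ) : ZMod m))
    intro w hw
    have h1 := hW w hw
    refine mem_filter.2 ⟨mem_erase.2 ⟨h1.1, mem_univ _⟩, ?_⟩
    rw [← hcu w h1.1, h1.2]
  have hout : ∀ (W : Finset V), (∀ w ∈ W, w ≠ u ∧ y w ≠ 0 ∧ y w ≠ 1) → W.card ≤ E0 := by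
    intro W hW
    refine le_trans (card_le_card ?_) hp.out
    intro w hw
    have h1 := hW w hw
    exact mem_filter.2 ⟨mem_erase.2 ⟨h1.1, mem_univ _⟩, h1.2.1, h1.2.2⟩
  -- few_nonP
  obtain ⟨L0, hL0⟩ : ∃ L0 : Finset V, L0 = (XX u x).filter (fun w => y w = 0) := ⟨_, rfl⟩
  obtain ⟨H1, hH1⟩ : ∃ H1 : Finset V, H1 = (XX u x).filter (fun w => y w = 1) := ⟨_, rfl⟩
  obtain ⟨O1, hO1⟩ : ∃ O1 : Finset V, O1 = (XX u x).filter (fun w => y w ≠ 0 ∧ y w ≠ 1) := ⟨_, rfl⟩
  have hLa : L0.card ≤ a := hcls L0 0 (fun w hw => by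
    rw [hL0] at hw
    have h1 := mem_filter.1 hw
    exact ⟨(mem_XX.1 h1.1).1, h1.2⟩)
  have hHa : H1.card ≤ a := hcls H1 1 (fun w hw => by
    rw [hH1] at hw
    have h1 := mem_filter.1 hw
    exact ⟨(mem_XX.1 h1.1).1, h1.2⟩)
  have hOa : O1.card ≤ E0 := hout O1 (fun w hw => by
    rw [hO1] at hw
    have h1 := mem_filter.1 hw
    exact ⟨(mem_XX.1 h1.1).1, h1.2⟩)
  have hcov : (XX u x).card ≤ L0.card + H1.card + O1.card := by
    have h1 : XX u x ⊆ (L0 ∪ H1) ∪ O1 := by
      intro w hw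
      rw [mem_union, mem_union, hL0, hH1, hO1, mem_filter, mem_filter, mem_filter]
      by_cases h2 : y w = 0
      · exact Or.inl (Or.inl ⟨hw, h2⟩)
      · by_cases h3 : y w = 1
        · exact Or.inl (Or.inr ⟨hw, h3⟩)
        · exact Or.inr ⟨hw, h2, h3⟩
    have h2 := card_le_card h1
    have h3 := card_union_le (L0 ∪ H1) O1
    have h4 := card_union_le L0 H1
    omega
  have hfew : ((XX u x).filter (fun w => 3 * c x w ≠ 3 * c u w)).card ≤ q := by
    refine few_nonP hM hz hV hxu.symm L0 H1 T ?_ ?_ ?_ ?_ ?_ ?_ (by omega) ?_ q hMq (by omega)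
      (by omega) (by omega)
    · rw [hL0]
      exact filter_subset _ _
    · rw [hH1]
      exact filter_subset _ _
    · intro w hw
      have h1 := hTw w hw
      exact mem_XX.2 ⟨h1.1, h1.2.1⟩
    · intro w hw
      rw [hL0] at hw
      have h1 := mem_filter.1 hw
      rw [← hcu w (mem_XX.1 h1.1).1, h1.2]
      exact Int.cast_zero
    · intro w hw
      rw [hH1] at hw
      have h1 := mem_filter.1 hw
      rw [← hcu w (mem_XX.1 h1.1).1, h1.2]
      exact Int.cast_one
    · rw [hL0, hH1, Finset.disjoint_left]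
      intro w h1 h2
      have h3 := (mem_filter.1 h1).2
      have h4 := (mem_filter.1 h2).2
      omega
    · intro w hw
      have h1 := hTw w hw
      rw [← hcu w h1.1, h1.2.2.1, Int.cast_one, mul_one]
      exact ⟨h1.2.2.2.1, h1.2.2.2.2⟩
  by_cases hxv : x = v
  · -- x = v
    subst hxv
    obtain ⟨Df, hDf⟩ : ∃ Df : Finset V, Df = (XX u x).filter (fun w => y w ≠ g w) := ⟨_, rfl⟩
    have hown : D0 ≤ Df.card := by
      rw [hDf]
      exact hp.own
    have hsa := sum_abs hp.pl hV (by omega) (by omega) (by rw [← hDf]; omega)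
    have h1 := card_filter_add_card_filter_not (s := Df) (fun w => 3 * c x w ≠ 3 * c u w)
    have h2 : (Df.filter (fun w => 3 * c x w ≠ 3 * c u w)).card ≤ q := by
      refine le_trans (card_le_card ?_) hfew
      rw [hDf]
      intro w hw
      have h3 := mem_filter.1 hw
      exact mem_filter.2 ⟨(mem_filter.1 h3.1).1, h3.2⟩
    have h3 : (Df.filter (fun w => ¬ (3 * c x w ≠ 3 * c u w))).card ≤ 2 := by
      obtain ⟨W, hW⟩ : ∃ W : Finset V, W = Df.filter (fun w => ¬ (3 * c x w ≠ 3 * c u w)) :=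
        ⟨_, rfl⟩
      rw [← hW]
      have h4 : ∀ w ∈ W, (M : ℤ) ≤ |g w - y w| := by
        intro w hw
        rw [hW, hDf] at hw
        have h5 := mem_filter.1 hw
        have h6 := mem_filter.1 h5.1
        have h7 := not_not.1 h5.2
        have h8 := mem_XX.1 h6.1
        have h9 : (3 : ZMod m) * (((g w - y w : ℤ)) : ZMod m) = 0 := by
          push_cast
          rw [hp.pl.hx w h8.1 h8.2, hp.pl.hu w h8.1 h8.2, mul_sub, h7, sub_self]
        have h10 := dvd_of_three hM h9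
        have h11 : g w - y w ≠ 0 := by
          intro h12
          exact h6.2 (by omega)
        have h12 : (M : ℤ) ∣ |g w - y w| := (dvd_abs _ _).2 h10
        exact Int.le_of_dvd (abs_pos.2 h11) h12
      have h5 : (W.card : ℤ) * M ≤ ∑ w ∈ W, |g w - y w| := by
        have h6 := card_nsmul_le_sum W (fun w => |g w - y w|) (M : ℤ) h4
        rw [nsmul_eq_mul] at h6
        exact h6
      have h6 : ∑ w ∈ W, |g w - y w| ≤ ∑ w ∈ XX u x, |g w - y w| := by
        apply sum_le_sum_of_subset_of_nonneg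
        · rw [hW, hDf]
          exact (filter_subset _ _).trans (filter_subset _ _)
        · intro w _ _
          exact abs_nonneg _
      by_contra h7
      push Not at h7
      have h8 : (3 : ℤ) * M ≤ W.card * M := by
        apply mul_le_mul_of_nonneg_right
        · exact_mod_cast h7
        · positivity
      have h9 : (m : ℤ) = 3 * M := by exact_mod_cast hM
      omega
    omega
  · -- x ≠ v
    have huv : u ≠ v := hp.pl.ne
    have hXuv : (XX u v).card + 2 = m + s := by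
      rw [card_XX huv, hV]
    have hxX : x ∈ XX u v := mem_XX.2 ⟨hxu, hxv⟩
    have hXe := card_erase_add_one hxX
    obtain ⟨G0, hG0⟩ : ∃ G0 : Finset V,
        G0 = ((XX u v).erase x).filter (fun w => y w = 0 ∧ 3 * c x w = 0) := ⟨_, rfl⟩
    obtain ⟨G1, hG1⟩ : ∃ G1 : Finset V,
        G1 = ((XX u v).erase x).filter (fun w => y w = 1 ∧ 3 * c x w = 3) := ⟨_, rfl⟩
    obtain ⟨O2, hO2⟩ : ∃ O2 : Finset V,
        O2 = ((XX u v).erase x).filter (fun w => y w ≠ 0 ∧ y w ≠ 1) := ⟨_, rfl⟩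
    have hne : ∀ w, w ∈ (XX u v).erase x → w ≠ u ∧ w ≠ v ∧ w ≠ x := by
      intro w hw
      have h1 := mem_erase.1 hw
      exact ⟨(mem_XX.1 h1.2).1, (mem_XX.1 h1.2).2, h1.1⟩
    have hG0a : G0.card ≤ a := hcls G0 0 (fun w hw => by
      rw [hG0] at hw
      have h1 := mem_filter.1 hw
      exact ⟨(hne w h1.1).1, h1.2.1⟩)
    have hG1a : G1.card ≤ a := hcls G1 1 (fun w hw => by
      rw [hG1] at hw
      have h1 := mem_filter.1 hw
      exact ⟨(hne w h1.1).1, h1.2.1⟩)
    have hO2a : O2.card ≤ E0 := hout O2 (fun w hw => by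
      rw [hO2] at hw
      have h1 := mem_filter.1 hw
      exact ⟨(hne w h1.1).1, h1.2⟩)
    obtain ⟨Fw, hFw⟩ : ∃ Fw : Finset V,
        Fw = (XX u x).filter (fun w => 3 * c x w ≠ 3 * c u w) := ⟨_, rfl⟩
    rw [← hFw] at hfew
    have hcov2 : ((XX u v).erase x).card ≤ G0.card + G1.card + O2.card + Fw.card := by
      have h1 : (XX u v).erase x ⊆ ((G0 ∪ G1) ∪ O2) ∪ Fw := by
        intro w hw
        have h0 := hne w hw
        rw [mem_union, mem_union, mem_union, hG0, hG1, hO2, hFw, mem_filter, mem_filter,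
          mem_filter, mem_filter]
        by_cases h3 : 3 * c x w = 3 * c u w
        · rw [← hcu w h0.1] at h3
          by_cases h4 : y w = 0
          · refine Or.inl (Or.inl (Or.inl ⟨hw, h4, ?_⟩))
            rw [h3, h4, Int.cast_zero, mul_zero]
          · by_cases h5 : y w = 1
            · refine Or.inl (Or.inl (Or.inr ⟨hw, h5, ?_⟩))
              rw [h3, h5, Int.cast_one, mul_one]
            · exact Or.inl (Or.inr ⟨hw, h4, h5⟩)
        · exact Or.inr ⟨mem_XX.2 ⟨h0.1, h0.2.2⟩, h3⟩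
      have h2 := card_le_card h1
      have h3 := card_union_le ((G0 ∪ G1) ∪ O2) Fw
      have h4 := card_union_le (G0 ∪ G1) O2
      have h5 := card_union_le G0 G1
      omega
    have hsum : m + s ≤ G0.card + G1.card + E0 + q + 3 := by omega
    refine no_twin (s := s) (q := q) (a := a) (D0 := D0) hM hMq hz hV hp.pl hxu hxv hp.cv hp.own
      G0 G1 ?_ ?_ ?_ ?_ ?_ ?_ (by omega) (by omega) (by omega) (by omega) (by omega) (by omega)
      (by omega) (by omega) (by omega) (by omega)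
    · rw [hG0]
      exact filter_subset _ _
    · rw [hG1]
      exact filter_subset _ _
    · intro w hw
      rw [hG0] at hw
      exact (mem_filter.1 hw).2.1
    · intro w hw
      rw [hG1] at hw
      exact (mem_filter.1 hw).2.1
    · intro w hw
      rcases mem_union.1 hw with h1 | h1
      · rw [hG0] at h1
        have h2 := (mem_filter.1 h1).2
        rw [h2.1, h2.2, Int.cast_zero, mul_zero]
      · rw [hG1] at h1
        have h2 := (mem_filter.1 h1).2
        rw [h2.1, h2.2, Int.cast_one, mul_one]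
    · have h1 : T.erase v ⊆ (G0 ∪ G1).filter (fun w => c x w ≠ ((y w : ℤ) : ZMod m)) := by
        intro w hw
        have h2 := mem_erase.1 hw
        have h3 := hTw w h2.2
        rw [mem_filter, mem_union]
        refine ⟨Or.inr ?_, ?_⟩
        · rw [hG1, mem_filter]
          exact ⟨mem_erase.2 ⟨h3.2.1, mem_XX.2 ⟨h3.1, h2.1⟩⟩, h3.2.2.1, h3.2.2.2.1⟩
        · rw [h3.2.2.1, Int.cast_one]
          exact h3.2.2.2.2
      have h2 := card_le_card h1
      have h3 := pred_card_le_card_erase (s := T) (a := v)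
      omega

end T3
end ZS44129
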