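import Mathlib
import Pool.Agent.Work.MP_44129c_co.T3.Excl

/-!
# MP_44129c_co/T3, Perv3 (size S-M): the per-vertex lemma for `3 ∣ m` with a partner

PROOF.  The same as `cubeK` (`E/Perv.lean`) and `perv` (`E/Perv2.lean`), with `lem_first` replaced by `cube3` and `excl3` (copy the proofs).
`ptn_refl`: `plift_refl`; the sets in the other fields are the same.
-/

set_option autoImplicit false

namespace ZS44129
namespace T3

open Finset E N

variable {V : Type} [Fintype V] [DecidableEq V] {m : ℕ}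

private theorem KK_sub (c : V → V → ZMod m) (u : V) (y : V → ℤ) (x : V) : KK c u y x ⊆ HH u y :=
  Finset.filter_subset _ _

private theorem mem_KK {c : V → V → ZMod m} {u : V} {y : V → ℤ} {x w : V} :
    w ∈ KK c u y x ↔ w ∈ HH u y ∧ rep (2 - lo m u y) (c x w) ≤ 0 := by
  simp [KK]

private theorem D_bd {c : V → V → ZMod m} {u : V} {y : V → ℤ} {x w : V} (hw : w ∈ KK c u y x) :
    1 ≤ 1 - rep (2 - lo m u y) (c x w) ∧ (1 - rep (2 - lo m u y) (c x w)) + 1 ≤ lo m u y := by
  have h1 := (mem_KK.1 hw).2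
  have h2 := rep_ge (2 - lo m u y) (c x w)
  omega

private theorem first3 [NeZero m] {c : V → V → ZMod m} (hsym : ∀ x w, c x w = c w x)
    (hz : ZSF m c) {u : V} {y : V → ℤ} (h : SL c u y) {s : ℕ} (hV : Fintype.card V = m + s)
    (hL : exL u y + 2 ≤ s) (hH : exH u y + 2 ≤ s) {v : V} {g : V → ℤ} {z0 : ℤ}
    {q a E0 D0 : ℕ} (hp : Ptn c u v y g z0 a E0 D0) (hn : Num3 m s q a E0 D0) {x : V}
    (hx : x ∈ LL u y) (hlo : (s : ℤ) + 2 ≤ lo m u y) {K₀ : Finset V} (hK : K₀ ⊆ KK c u y x)
    (hc : (K₀.card : ℤ) = lo m u y) :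
    ∃ M : ℕ, m = 2 * M ∧
      (K₀.filter (fun w => 1 - rep (2 - lo m u y) (c x w) ≠ (M : ℤ))).card + s + 1 ≤ M := by
  rcases cube3 hsym hz h hV hL hH hn.m4 hx hlo hK hc with hM | ⟨M, hM1, hM2⟩
  · exact hM
  · exact (excl3 hsym hz h hV hL hH hp hn hx hlo hK hc hM1 hM2).elim

private theorem cubeK3 [NeZero m] {c : V → V → ZMod m} (hsym : ∀ x w, c x w = c w x)
    (hz : ZSF m c) {u : V} {y : V → ℤ} (h : SL c u y) {s : ℕ} (hV : Fintype.card V = m + s)
    (hL : exL u y + 2 ≤ s) (hH : exH u y + 2 ≤ s) {v : V} {g : V → ℤ} {z0 : ℤ}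
    {q a E0 D0 : ℕ} (hp : Ptn c u v y g z0 a E0 D0) (hn : Num3 m s q a E0 D0) {x : V}
    (hx : x ∈ LL u y) (hlo : (s : ℤ) + 2 ≤ lo m u y)
    (hK : lo m u y ≤ ((KK c u y x).card : ℤ)) :
    ∃ M : ℕ, m = 2 * M ∧ ((LL u y).card : ℤ) + exL u y + 1 ≤ M ∧
      (KK c u y x).card + s + 1 ≤ M + ((KK c u y x).filter (fun w => c x w = 1 - M)).card := by
  have hm := hn.m4
  have hlonn : 0 ≤ lo m u y := by
    have : (0 : ℤ) ≤ s := Int.natCast_nonneg _
    linarith
  obtain ⟨K₀, hK₀, hK₀c⟩ := Finset.exists_subset_card_eq (s := KK c u y x) (n := (lo m u y).toNat)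
    (by omega)
  have hK₀c' : (K₀.card : ℤ) = lo m u y := by omega
  obtain ⟨M, hM, hM1⟩ := first3 hsym hz h hV hL hH hp hn hx hlo hK₀ hK₀c'
  have hMs : s + 1 ≤ M := by omega
  have hM2 : M ≤ 2 * s := by omega
  have hall : ((KK c u y x).filter (fun w => 1 - rep (2 - lo m u y) (c x w) ≠ (M : ℤ))).card + s + 1 ≤ M := by
    by_contra hcon
    obtain ⟨B, hB, hBc⟩ := Finset.exists_subset_card_eq
      (s := (KK c u y x).filter (fun w => 1 - rep (2 - lo m u y) (c x w) ≠ (M : ℤ))) (n := M - s) (by omega)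
    obtain ⟨K₁, hBK, hK₁, hK₁c⟩ := Finset.exists_subsuperset_card_eq
      (hB.trans (Finset.filter_subset _ _)) (n := (lo m u y).toNat) (by omega) (by omega)
    have hK₁c' : (K₁.card : ℤ) = lo m u y := by omega
    obtain ⟨M', hM', hM1'⟩ := first3 hsym hz h hV hL hH hp hn hx hlo hK₁ hK₁c'
    have hMM : M' = M := by omega
    subst hMM
    have hle : B.card ≤ (K₁.filter (fun w => 1 - rep (2 - lo m u y) (c x w) ≠ (M' : ℤ))).card := by
      apply Finset.card_le_card
      intro w hw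
      rw [Finset.mem_filter]
      exact ⟨hBK hw, (Finset.mem_filter.1 (hB hw)).2⟩
    omega
  have hsplit := Finset.card_filter_add_card_filter_not (s := KK c u y x)
    (fun w => 1 - rep (2 - lo m u y) (c x w) = (M : ℤ))
  have hKs : s + 2 ≤ (KK c u y x).card := by
    have : ((s + 2 : ℕ) : ℤ) ≤ ((KK c u y x).card : ℤ) := by push_cast; linarith
    exact_mod_cast this
  have hpos : 0 < ((KK c u y x).filter (fun w => 1 - rep (2 - lo m u y) (c x w) = (M : ℤ))).card := by
    have h9 : ((KK c u y x).filter (fun w => ¬ 1 - rep (2 - lo m u y) (c x w) = (M : ℤ))).card + s + 1 ≤ M := hall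
    omega
  refine ⟨M, hM, ?_, ?_⟩
  · obtain ⟨w, hw⟩ := Finset.card_pos.1 hpos
    rw [Finset.mem_filter] at hw
    have h10 := (D_bd hw.1).2
    rw [hw.2] at h10
    have hmz : (m : ℤ) = 2 * M := by exact_mod_cast hM
    have h11 : lo m u y = m - (LL u y).card - exL u y := rfl
    linarith
  · have h12 : ((KK c u y x).filter (fun w => 1 - rep (2 - lo m u y) (c x w) = (M : ℤ))).card ≤
        ((KK c u y x).filter (fun w => c x w = 1 - M)).card := by
      apply Finset.card_le_card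
      intro w hw
      rw [Finset.mem_filter] at hw ⊢
      refine ⟨hw.1, ?_⟩
      have h13 := rep_cast (2 - lo m u y) (c x w)
      have h14 : rep (2 - lo m u y) (c x w) = 1 - (M : ℤ) := by linarith [hw.2]
      rw [h14] at h13
      rw [← h13]
      push_cast
      ring
    have h9 : ((KK c u y x).filter (fun w => ¬ 1 - rep (2 - lo m u y) (c x w) = (M : ℤ))).card + s + 1 ≤ M := hall
    omega

theorem perv3 [NeZero m] {c : V → V → ZMod m} (hsym : ∀ x w, c x w = c w x) (hz : ZSF m c)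
    {u : V} {y : V → ℤ} (h : SL c u y) {s : ℕ} (hV : Fintype.card V = m + s)
    (hL : exL u y + 2 ≤ s) (hH : exH u y + 2 ≤ s) {v : V} {g : V → ℤ} {z0 : ℤ}
    {q a E0 D0 : ℕ} (hp : Ptn c u v y g z0 a E0 D0) (hn : Num3 m s q a E0 D0) {x : V}
    (hx : x ∈ LL u y) :
    s + exL u y ≤ ((UU c u y x).card : ℤ) ∨
      ∃ M : ℕ, m = 2 * M ∧ ((LL u y).card : ℤ) + exL u y + 1 ≤ M ∧
        M + 2 * s ≤ (UU c u y x).card + (LL u y).card +
          ((HH u y).filter (fun w => c x w = 1 - M)).card := by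
  by_cases hlt : s + exL u y ≤ ((UU c u y x).card : ℤ)
  · exact Or.inl hlt
  right
  have hs : 1 ≤ s := by
    have := exL_nonneg u y
    have h0 : (2 : ℤ) ≤ s := by linarith
    omega
  have h2 : ((UU c u y x).card : ℤ) + (KK c u y x).card = (HH u y).card := by
    exact_mod_cast card_UK c u y x
  have h3' : ((LL u y).card : ℤ) + (HH u y).card + 1 = m + s := by
    exact_mod_cast card_LH hV hs u y
  by_cases hlo : lo m u y ≤ s + 1
  · exact absurd (perv_greedy hsym hz h hV hL hH hx hlo) hlt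
  have hK : lo m u y ≤ ((KK c u y x).card : ℤ) := by
    have h4 : ((UU c u y x).card : ℤ) + 1 ≤ s + exL u y := by omega
    unfold lo
    linarith
  obtain ⟨M, hM1, hM2, hM3⟩ := cubeK3 hsym hz h hV hL hH hp hn hx (by omega) hK
  refine ⟨M, hM1, hM2, ?_⟩
  have hsub : (KK c u y x).filter (fun w => c x w = 1 - M) ⊆
      (HH u y).filter (fun w => c x w = 1 - M) := by
    refine Finset.filter_subset_filter _ ?_
    unfold KK
    exact Finset.filter_subset _ _
  have h5 := Finset.card_le_card hsub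
  have h6 := card_UK c u y x
  have h7 := card_LH hV hs u y
  omega

theorem ptn_refl {c : V → V → ZMod m} {u v : V} {y g : V → ℤ} {z0 : ℤ} {a E0 D0 : ℕ}
    (h : Ptn c u v y g z0 a E0 D0) :
    Ptn (fun p q => 1 - c p q) u v (fun w => 1 - y w) (fun w => 1 - g w) (1 - z0) a E0 D0 := by
  refine ⟨plift_refl h.pl, ?_, ?_, ?_, ?_⟩
  · refine le_trans (le_of_eq ?_) h.out
    congr 1
    refine Finset.filter_congr (fun w _ => ?_)
    constructor
    · rintro ⟨h1, h2⟩
      exact ⟨fun h3 => h2 (by rw [h3]; norm_num), fun h3 => h1 (by rw [h3]; norm_num)⟩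
    · rintro ⟨h1, h2⟩
      exact ⟨fun h3 => h2 (by linarith), fun h3 => h1 (by linarith)⟩
  · intro z
    refine le_trans (le_of_eq ?_) (h.cu (1 - z))
    congr 1
    refine Finset.filter_congr (fun w _ => ?_)
    constructor
    · intro h1
      rw [← h1]
      ring
    · intro h1
      rw [h1]
      ring
  · intro z
    refine le_trans (le_of_eq ?_) (h.cv (1 - z))
    congr 1
    refine Finset.filter_congr (fun w _ => ?_)
    constructor
    · intro h1
      rw [← h1]
      ring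
    · intro h1
      rw [h1]
      ring
  · refine le_trans h.own (le_of_eq ?_)
    congr 1
    refine Finset.filter_congr (fun w _ => ?_)
    constructor
    · intro h1 h2
      exact h1 (by linarith)
    · intro h1 h2
      exact h1 (by rw [h2])

end T3
end ZS44129
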