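import Mathlib
import Pool.Agent.Work.MP_44129c_co.T3.Perv3
import Pool.Agent.Work.MP_44129c_co.T3.NoTwG
import Pool.Agent.Work.MP_44129c_co.E.Goodman

/-!
# MP_44129c_co/T3, Good3 (size S-M): the per-vertex Goodman inequality for `3 ∣ m`

PROOF.  `goodL3`: `perv3` and `no_tw_G`.  `goodH3`: `goodL3` for the reflected colouring `1 - c` (`zsf_refl`, `sl_refl`, `ptn_refl`, `exL_refl`, `exH_refl`, `LL_refl`, `UU_refl`, as in
`pervH`).  `goodman_star3`: as `goodman_star`.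
-/

set_option autoImplicit false

namespace ZS44129
namespace T3

open Finset E N

variable {V : Type} [Fintype V] [DecidableEq V] {m : ℕ}

theorem goodL3 [NeZero m] {c : V → V → ZMod m} (hsym : ∀ x w, c x w = c w x) (hz : ZSF m c)
    {u : V} {y : V → ℤ} (h : SL c u y) {s : ℕ} (hV : Fintype.card V = m + s)
    (hL : exL u y + 2 ≤ s) (hH : exH u y + 2 ≤ s) {v : V} {g : V → ℤ} {z0 : ℤ}
    {q a E0 D0 : ℕ} (hp : Ptn c u v y g z0 a E0 D0) (hn : Num3 m s q a E0 D0) {x : V}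
    (hx : x ∈ LL u y) : s + exL u y ≤ ((UU c u y x).card : ℤ) := by
  rcases perv3 hsym hz h hV hL hH hp hn hx with h1 | ⟨M, hM, h2, -⟩
  · exact h1
  · exact absurd h2 (no_tw_G hsym hz h hV hL hH
      (fun x hx => perv3 hsym hz h hV hL hH hp hn hx) hM (hn.ev M hM).1 (hn.ev M hM).2)

theorem goodH3 [NeZero m] {c : V → V → ZMod m} (hsym : ∀ x w, c x w = c w x) (hz : ZSF m c)
    {u : V} {y : V → ℤ} (h : SL c u y) {s : ℕ} (hV : Fintype.card V = m + s)
    (hL : exL u y + 2 ≤ s) (hH : exH u y + 2 ≤ s) {v : V} {g : V → ℤ} {z0 : ℤ}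
    {q a E0 D0 : ℕ} (hp : Ptn c u v y g z0 a E0 D0) (hn : Num3 m s q a E0 D0) {w : V}
    (hw : w ∈ HH u y) : s + exH u y ≤ ((PP c u y w).card : ℤ) := by
  have h1 := goodL3 (c := fun x w => 1 - c x w) (fun x w => by rw [hsym x w]) (zsf_refl hz)
    (sl_refl h) hV (by rw [exL_refl]; exact hH) (by rw [exH_refl]; exact hL) (ptn_refl hp) hn
    (x := w) (by rw [LL_refl]; exact hw)
  rw [exL_refl, UU_refl] at h1
  exact h1

theorem goodman_star3 [NeZero m] {c : V → V → ZMod m} (hsym : ∀ x w, c x w = c w x)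
    (hz : ZSF m c) {u : V} {y : V → ℤ} (h : SL c u y) {s : ℕ} (hV : Fintype.card V = m + s)
    (hL : exL u y + 2 ≤ s) (hH : exH u y + 2 ≤ s) {v : V} {g : V → ℤ} {z0 : ℤ}
    {q a E0 D0 : ℕ} (hp : Ptn c u v y g z0 a E0 D0) (hn : Num3 m s q a E0 D0) :
    4 * (((LL u y).card : ℤ) * (s + exL u y) + (HH u y).card * (s + exH u y)) ≤
      4 * ((LL u y).card * (HH u y).card : ℤ) + exL u y * exH u y := by
  have h1 := dc hsym hz h hV hL hH
  have h2 : ((LL u y).card : ℤ) * (s + exL u y) ≤ ∑ x ∈ LL u y, ((UU c u y x).card : ℤ) := by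
    rw [← nsmul_eq_mul]
    exact Finset.card_nsmul_le_sum _ _ _ (fun x hx => goodL3 hsym hz h hV hL hH hp hn hx)
  have h3 : ((HH u y).card : ℤ) * (s + exH u y) ≤ ∑ w ∈ HH u y, ((PP c u y w).card : ℤ) := by
    rw [← nsmul_eq_mul]
    exact Finset.card_nsmul_le_sum _ _ _ (fun w hw => goodH3 hsym hz h hV hL hH hp hn hw)
  linarith

end T3
end ZS44129
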